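import Mathlib

/-!
Landau's local lemma on the logarithmic derivative.
-/

open Metric Complex ComplexConjugate Set

namespace Pool.Agent.Helper94.ZF

/-- Existence of a logarithm on a ball. -/
lemma exists_log_ball {c : ℂ} {r : ℝ} {f : ℂ → ℂ} (hr : 0 < r)
    (hf : DifferentiableOn ℂ f (ball c r)) (hne : ∀ z ∈ ball c r, f z ≠ 0) :
    ∃ h : ℂ → ℂ, h c = 0 ∧ (∀ z ∈ ball c r, HasDerivAt h (deriv f z / f z) z) ∧
      ∀ z ∈ ball c r, f z = f c * exp (h z) := by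
  have hcm : c ∈ ball c r := mem_ball_self hr
  have hd : ∀ z ∈ ball c r, HasDerivAt f (deriv f z) z := fun z hz =>
    (hf.differentiableAt (isOpen_ball.mem_nhds hz)).hasDerivAt
  have h1 : DifferentiableOn ℂ (fun z => deriv f z / f z) (ball c r) :=
    (hf.deriv isOpen_ball).div hf hne
  obtain ⟨h, hh0, hh⟩ := (h1.isExactOn_ball).with_val_at c 0
  refine ⟨h, hh0, hh, ?_⟩
  have hder : ∀ z ∈ ball c r, HasDerivAt (fun z => f z * exp (-h z)) 0 z := by
    intro z hz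
    have h2 := (hd z hz).mul ((hh z hz).neg.cexp)
    have h3 := hne z hz
    refine h2.congr_deriv ?_
    have h4 : f z * (deriv f z / f z) = deriv f z := by field_simp
    linear_combination (-exp (-h z)) * h4
  have hconst : ∀ z ∈ ball c r, f z * exp (-h z) = f c * exp (-h c) := by
    intro z hz
    have hdiff : DifferentiableOn ℂ (fun z => f z * exp (-h z)) (ball c r) :=
      fun z hz => (hder z hz).differentiableAt.differentiableWithinAt
    refine (convex_ball c r).is_const_of_fderivWithin_eq_zero hdiff (fun w hw => ?_) hz hcm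
    rw [fderivWithin_of_isOpen isOpen_ball hw]
    have := (hder w hw).hasFDerivAt.fderiv
    rw [this]
    ext
    simp
  intro z hz
  have h3 := hconst z hz
  rw [hh0, neg_zero, exp_zero, mul_one] at h3
  rw [← h3, mul_assoc, ← exp_add, neg_add_cancel, exp_zero, mul_one]

/-- Borel-Caratheodory for the logarithmic derivative at the centre. -/
lemma norm_deriv_div_le_of_ne_zero {r B : ℝ} {f : ℂ → ℂ} (hr : 0 < r) (hB : 0 < B)
    (hf : DifferentiableOn ℂ f (ball 0 r)) (hne : ∀ z ∈ ball (0 : ℂ) r, f z ≠ 0)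
    (hA : ∀ z ∈ ball (0 : ℂ) r, ‖f z‖ ≤ Real.exp B * ‖f 0‖) :
    ‖deriv f 0 / f 0‖ ≤ 2 * B / r := by
  have h0m : (0 : ℂ) ∈ ball (0 : ℂ) r := mem_ball_self hr
  obtain ⟨h, hh0, hh, hf2⟩ := exists_log_ball hr hf hne
  have hre : ∀ z ∈ ball (0 : ℂ) r, (h z).re ≤ B := by
    intro z hz
    have h1 := hA z hz
    rw [hf2 z hz, norm_mul, Complex.norm_exp, mul_comm (Real.exp B)] at h1
    have h2 : 0 < ‖f 0‖ := norm_pos_iff.mpr (hne 0 h0m)
    exact Real.exp_le_exp.mp (le_of_mul_le_mul_left h1 h2)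
  have hbound : ∀ z ∈ ball (0 : ℂ) r, ‖h z‖ ≤ 2 * B * ‖z‖ / (r - ‖z‖) := by
    intro z hz
    exact borelCaratheodory_zero hB (fun w hw => (hh w hw).differentiableAt.differentiableWithinAt)
      (fun w hw => hre w hw) hr hz hh0
  refine le_of_forall_gt_imp_ge_of_dense fun C hC => ?_
  have hC0 : 0 < C := lt_trans (by positivity) hC
  have hε : 0 < r - 2 * B / C := by
    rw [div_lt_iff₀ hr] at hC
    rw [sub_pos, div_lt_iff₀ hC0]
    linarith
  refine (hh 0 h0m).le_of_lip' hC0.le ?_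
  filter_upwards [isOpen_ball.mem_nhds h0m, ball_mem_nhds (0 : ℂ) hε] with z hz hz2
  rw [hh0, sub_zero, sub_zero]
  refine (hbound z hz).trans ?_
  rw [mem_ball_zero_iff] at hz hz2
  have h4 : 2 * B ≤ C * (r - ‖z‖) := by
    have : 2 * B / C < r - ‖z‖ := by linarith
    rw [div_lt_iff₀ hC0] at this
    linarith
  rw [div_le_iff₀ (by linarith)]
  nlinarith [norm_nonneg z]

/-- Removing a zero by a Blaschke factor. -/
lemma remove_zero {R A : ℝ} {f : ℂ → ℂ} {w : ℂ} (hR : 0 < R) (hw0 : w ≠ 0) (hwR : ‖w‖ < R)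
    (hf : DiffContOnCl ℂ f (ball 0 R)) (hA : ∀ z ∈ sphere (0 : ℂ) R, ‖f z‖ ≤ A) (hfw : f w = 0) :
    ∃ F : ℂ → ℂ, DiffContOnCl ℂ F (ball 0 R) ∧ (∀ z ∈ sphere (0 : ℂ) R, ‖F z‖ ≤ A) ∧
      ‖F 0‖ = ‖f 0‖ * (R / ‖w‖) ∧ (∀ z ∈ ball (0 : ℂ) R, F z = 0 → f z = 0) ∧
      (∀ z, z ≠ w → f z = 0 → F z = 0) ∧
      (f 0 ≠ 0 → (deriv f 0 / f 0).re =
        (deriv F 0 / F 0).re + (-w.re) * (1 / ‖w‖ ^ 2 - 1 / R ^ 2)) := by
  have hwm : w ∈ ball (0 : ℂ) R := by rwa [mem_ball_zero_iff]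
  have hnhds : ball (0 : ℂ) R ∈ nhds w := isOpen_ball.mem_nhds hwm
  have hcl : closure (ball (0 : ℂ) R) = closedBall 0 R := closure_ball 0 hR.ne'
  have hRc : (R : ℂ) ≠ 0 := by exact_mod_cast hR.ne'
  have hval : ∀ z, z ≠ w → dslope f w z = f z / (z - w) := by
    intro z hz
    rw [dslope_of_ne _ hz, slope_def_field, hfw, sub_zero]
  have hne : ∀ z ∈ closedBall (0 : ℂ) R, (R : ℂ) ^ 2 - conj w * z ≠ 0 := by
    intro z hz h
    rw [mem_closedBall_zero_iff] at hz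
    have h1 : (R : ℂ) ^ 2 = conj w * z := by linear_combination h
    have h2 := congrArg norm h1
    rw [norm_pow, norm_mul, RCLike.norm_conj, Complex.norm_real, Real.norm_of_nonneg hR.le] at h2
    nlinarith [norm_nonneg z, norm_nonneg w]
  refine ⟨fun z => dslope f w z * ((R ^ 2 - conj w * z) / R), ⟨?_, ?_⟩, ?_, ?_, ?_, ?_, ?_⟩
  · refine ((Complex.differentiableOn_dslope hnhds).mpr hf.differentiableOn).mul ?_
    fun_prop
  · refine ContinuousOn.mul ?_ (by fun_prop)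
    rw [continuousOn_dslope (Filter.mem_of_superset hnhds subset_closure)]
    exact ⟨hf.continuousOn, hf.differentiableOn.differentiableAt hnhds⟩
  · intro z hz
    have hz' : ‖z‖ = R := by simpa using hz
    have hzw : z ≠ w := by
      rintro rfl
      rw [hz'] at hwR
      exact lt_irrefl _ hwR
    have h1 : z - w ≠ 0 := sub_ne_zero.mpr hzw
    simp only
    rw [hval z hzw, norm_mul, norm_div, norm_div, Complex.norm_real, Real.norm_of_nonneg hR.le]
    have h2 : ‖(R : ℂ) ^ 2 - conj w * z‖ = R * ‖z - w‖ := by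
      have e1 : (R : ℂ) ^ 2 = conj z * z := by
        rw [mul_comm, Complex.mul_conj, Complex.normSq_eq_norm_sq, hz']
        push_cast
        rfl
      have e2 : (R : ℂ) ^ 2 - conj w * z = conj (z - w) * z := by
        rw [e1, map_sub]
        ring
      rw [e2, norm_mul, RCLike.norm_conj, hz']
      ring
    rw [h2]
    have h3 : 0 < ‖z - w‖ := norm_pos_iff.mpr h1
    have h4 : ‖f z‖ / ‖z - w‖ * (R * ‖z - w‖ / R) = ‖f z‖ := by
      field_simp
    rw [h4]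
    exact hA z hz
  · simp only
    rw [hval 0 hw0.symm, mul_zero, sub_zero, zero_sub, norm_mul, norm_div, norm_div, norm_neg,
      norm_pow, Complex.norm_real, Real.norm_of_nonneg hR.le]
    have h3 : 0 < ‖w‖ := norm_pos_iff.mpr hw0
    field_simp
  · intro z hz h
    by_cases hzw : z = w
    · rw [hzw, hfw]
    · simp only at h
      rw [hval z hzw] at h
      have h1 : z - w ≠ 0 := sub_ne_zero.mpr hzw
      have h2 := hne z (ball_subset_closedBall hz)
      have h3 : ((R : ℂ) ^ 2 - conj w * z) / R ≠ 0 := div_ne_zero h2 hRc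
      have h4 := (mul_eq_zero.mp h).resolve_right h3
      exact (div_eq_zero_iff.mp h4).resolve_right h1
  · intro z hzw h
    simp only
    rw [hval z hzw, h, zero_div, zero_mul]
  · intro hf0
    have h0m : (0 : ℂ) ∈ ball (0 : ℂ) R := mem_ball_self hR
    have hd : HasDerivAt f (deriv f 0) 0 :=
      (hf.differentiableOn.differentiableAt (isOpen_ball.mem_nhds h0m)).hasDerivAt
    have hev : (fun z => dslope f w z * ((R ^ 2 - conj w * z) / R)) =ᶠ[nhds 0]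
        fun z => f z / (z - w) * ((R ^ 2 - conj w * z) / R) := by
      filter_upwards [isOpen_ne.mem_nhds hw0.symm] with z hz
      rw [hval z hz]
    have h0w : (0 : ℂ) - w ≠ 0 := by simpa using hw0
    have hd1 : HasDerivAt (fun z : ℂ => z - w) 1 0 := (hasDerivAt_id (0 : ℂ)).sub_const w
    have hd2 : HasDerivAt (fun z : ℂ => ((R : ℂ) ^ 2 - conj w * z) / R) (-conj w / R) 0 := by
      have := (((hasDerivAt_id (0 : ℂ)).const_mul (conj w)).const_sub ((R : ℂ) ^ 2)).div_const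
        (R : ℂ)
      simpa using this
    have hd3 := ((hd.div hd1 h0w).mul hd2)
    have hd4 := (hd3.congr_of_eventuallyEq hev).deriv
    rw [hd4]
    have e1 : dslope f w 0 = f 0 / (0 - w) := hval 0 hw0.symm
    have e2 : (deriv f 0 * (0 - w) - f 0 * 1) / (0 - w) ^ 2 *
        (((R : ℂ) ^ 2 - conj w * 0) / R) + f 0 / (0 - w) * (-conj w / R) =
        (f 0 / (0 - w) * (((R : ℂ) ^ 2 - conj w * 0) / R)) *
          (deriv f 0 / f 0 + (1 / w - conj w / R ^ 2)) := by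
      field_simp
      ring
    have e3 : f 0 / (0 - w) * (((R : ℂ) ^ 2 - conj w * 0) / R) ≠ 0 := by
      refine mul_ne_zero (div_ne_zero hf0 h0w) (div_ne_zero ?_ hRc)
      rw [mul_zero, sub_zero]
      exact pow_ne_zero _ hRc
    simp only [Pi.div_apply]
    rw [e1, e2, mul_div_cancel_left₀ _ e3, Complex.add_re]
    have e4 : (1 / w - conj w / (R : ℂ) ^ 2).re = w.re * (1 / ‖w‖ ^ 2 - 1 / R ^ 2) := by
      rw [Complex.sub_re, one_div, Complex.inv_re, Complex.normSq_eq_norm_sq]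
      have : (conj w / (R : ℂ) ^ 2).re = w.re / R ^ 2 := by
        rw [← Complex.ofReal_pow, Complex.div_ofReal_re, Complex.conj_re]
      rw [this]
      ring
    rw [e4]
    ring

/-- Landau's lemma, without chosen zeros. -/
lemma landau_zero {R r A B : ℝ} (hr : 0 < r) (hrR : r < R) (hB : 0 < B) (n : ℕ) :
    ∀ f : ℂ → ℂ, DiffContOnCl ℂ f (ball 0 R) → (∀ z ∈ sphere (0 : ℂ) R, ‖f z‖ ≤ A) → f 0 ≠ 0 →
      A ≤ Real.exp B * ‖f 0‖ → (∀ z ∈ ball (0 : ℂ) r, f z = 0 → z.re ≤ 0) →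
      A < ‖f 0‖ * (R / r) ^ n → -(2 * B / r) ≤ (deriv f 0 / f 0).re := by
  have hR : 0 < R := hr.trans hrR
  have hmax : ∀ f : ℂ → ℂ, DiffContOnCl ℂ f (ball 0 R) → (∀ z ∈ sphere (0 : ℂ) R, ‖f z‖ ≤ A) →
      ∀ z ∈ closedBall (0 : ℂ) R, ‖f z‖ ≤ A := by
    intro f hf hA z hz
    refine Complex.norm_le_of_forall_mem_frontier_norm_le isBounded_ball hf (fun w hw => ?_) ?_
    · rw [frontier_ball 0 hR.ne'] at hw
      exact hA w hw
    · rwa [closure_ball 0 hR.ne']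
  induction n with
  | zero =>
    intro f hf hA hf0 _ _ hn
    rw [pow_zero, mul_one] at hn
    have := hmax f hf hA 0 (mem_closedBall_self hR.le)
    linarith
  | succ n ih =>
    intro f hf hA hf0 hAB hz hn
    by_cases hex : ∃ w ∈ ball (0 : ℂ) r, f w = 0
    · obtain ⟨w, hw, hfw⟩ := hex
      have hw0 : w ≠ 0 := by
        rintro rfl
        exact hf0 hfw
      have hwr : ‖w‖ < r := by rwa [mem_ball_zero_iff] at hw
      have hwpos : 0 < ‖w‖ := norm_pos_iff.mpr hw0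
      obtain ⟨F, h1, h2, h3, h4, -, h6⟩ := remove_zero hR hw0 (hwr.trans hrR) hf hA hfw
      have hf0' : 0 < ‖f 0‖ := norm_pos_iff.mpr hf0
      have h7 : ‖f 0‖ * (R / r) ≤ ‖F 0‖ := by
        rw [h3]
        gcongr
      have h8 : 1 < R / r := by rwa [one_lt_div hr]
      have h9 : ‖f 0‖ ≤ ‖F 0‖ := le_trans (by nlinarith) h7
      have hF0 : F 0 ≠ 0 := norm_pos_iff.mp (hf0'.trans_le h9)
      have h10 := ih F h1 h2 hF0 (hAB.trans (by gcongr))
        (fun z hz' h => hz z hz' (h4 z (ball_subset_ball hrR.le hz') h))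
        (hn.trans_le (by
          rw [pow_succ']
          calc ‖f 0‖ * (R / r * (R / r) ^ n) = (‖f 0‖ * (R / r)) * (R / r) ^ n := by ring
            _ ≤ ‖F 0‖ * (R / r) ^ n := by gcongr))
      rw [h6 hf0]
      have h11 : w.re ≤ 0 := hz w hw hfw
      have h12 : 1 / R ^ 2 ≤ 1 / ‖w‖ ^ 2 := by
        have : ‖w‖ < R := hwr.trans hrR
        gcongr
      have h13 : 0 ≤ (-w.re) * (1 / ‖w‖ ^ 2 - 1 / R ^ 2) :=
        mul_nonneg (by linarith) (by linarith)
      linarith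
    · push Not at hex
      have h1 := norm_deriv_div_le_of_ne_zero (f := f) hr hB
        (hf.differentiableOn.mono (ball_subset_ball hrR.le)) hex (fun z hz' => by
          refine (hmax f hf hA z ?_).trans hAB
          exact ball_subset_closedBall (ball_subset_ball hrR.le hz'))
      have h2 := Complex.abs_re_le_norm (deriv f 0 / f 0)
      have h3 := neg_abs_le (deriv f 0 / f 0).re
      linarith

/-- Landau's lemma, without chosen zeros. -/
theorem landau0 {R r A B : ℝ} (hr : 0 < r) (hrR : r < R) (hB : 0 < B) {f : ℂ → ℂ}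
    (hf : DiffContOnCl ℂ f (ball 0 R)) (hA : ∀ z ∈ sphere (0 : ℂ) R, ‖f z‖ ≤ A) (hf0 : f 0 ≠ 0)
    (hAB : A ≤ Real.exp B * ‖f 0‖) (hz : ∀ z ∈ ball (0 : ℂ) r, f z = 0 → z.re ≤ 0) :
    -(2 * B / r) ≤ (deriv f 0 / f 0).re := by
  have h1 : 1 < R / r := by rwa [one_lt_div hr]
  have hf0' : 0 < ‖f 0‖ := norm_pos_iff.mpr hf0
  obtain ⟨n, hn⟩ := pow_unbounded_of_one_lt (A / ‖f 0‖) h1
  refine landau_zero hr hrR hB n f hf hA hf0 hAB hz ?_
  rw [div_lt_iff₀ hf0'] at hn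
  linarith

/-- Landau's lemma with one chosen zero. -/
theorem landau1 {R r A B : ℝ} (hr : 0 < r) (hrR : r < R) (hB : 0 < B) {f : ℂ → ℂ}
    (hf : DiffContOnCl ℂ f (ball 0 R)) (hA : ∀ z ∈ sphere (0 : ℂ) R, ‖f z‖ ≤ A) (hf0 : f 0 ≠ 0)
    (hAB : A ≤ Real.exp B * ‖f 0‖) (hz : ∀ z ∈ ball (0 : ℂ) r, f z = 0 → z.re ≤ 0)
    {w : ℂ} (hw : ‖w‖ < R) (hfw : f w = 0) :
    -(2 * B / r) + (-w.re) * (1 / ‖w‖ ^ 2 - 1 / R ^ 2) ≤ (deriv f 0 / f 0).re := by
  have hR : 0 < R := hr.trans hrR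
  have hw0 : w ≠ 0 := by
    rintro rfl
    exact hf0 hfw
  have hwpos : 0 < ‖w‖ := norm_pos_iff.mpr hw0
  obtain ⟨F, h1, h2, h3, h4, -, h6⟩ := remove_zero hR hw0 hw hf hA hfw
  have hf0' : 0 < ‖f 0‖ := norm_pos_iff.mpr hf0
  have h8 : 1 < R / ‖w‖ := by rwa [one_lt_div hwpos]
  have h9 : ‖f 0‖ ≤ ‖F 0‖ := by
    rw [h3]
    nlinarith
  have hF0 : F 0 ≠ 0 := norm_pos_iff.mp (hf0'.trans_le h9)
  have h10 := landau0 hr hrR hB h1 h2 hF0 (hAB.trans (by gcongr))
    (fun z hz' h => hz z hz' (h4 z (ball_subset_ball hrR.le hz') h))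
  rw [h6 hf0]
  linarith

/-- Landau's lemma with two chosen zeros. -/
theorem landau2 {R r A B : ℝ} (hr : 0 < r) (hrR : r < R) (hB : 0 < B) {f : ℂ → ℂ}
    (hf : DiffContOnCl ℂ f (ball 0 R)) (hA : ∀ z ∈ sphere (0 : ℂ) R, ‖f z‖ ≤ A) (hf0 : f 0 ≠ 0)
    (hAB : A ≤ Real.exp B * ‖f 0‖) (hz : ∀ z ∈ ball (0 : ℂ) r, f z = 0 → z.re ≤ 0)
    {w w' : ℂ} (hw : ‖w‖ < R) (hfw : f w = 0) (hw' : ‖w'‖ < R) (hfw' : f w' = 0) (hne : w' ≠ w) :
    -(2 * B / r) + (-w.re) * (1 / ‖w‖ ^ 2 - 1 / R ^ 2) +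
      (-w'.re) * (1 / ‖w'‖ ^ 2 - 1 / R ^ 2) ≤ (deriv f 0 / f 0).re := by
  have hR : 0 < R := hr.trans hrR
  have hw0 : w ≠ 0 := by
    rintro rfl
    exact hf0 hfw
  have hwpos : 0 < ‖w‖ := norm_pos_iff.mpr hw0
  obtain ⟨F, h1, h2, h3, h4, h5, h6⟩ := remove_zero hR hw0 hw hf hA hfw
  have hf0' : 0 < ‖f 0‖ := norm_pos_iff.mpr hf0
  have h8 : 1 < R / ‖w‖ := by rwa [one_lt_div hwpos]
  have h9 : ‖f 0‖ ≤ ‖F 0‖ := by
    rw [h3]
    nlinarith
  have hF0 : F 0 ≠ 0 := norm_pos_iff.mp (hf0'.trans_le h9)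
  have h10 := landau1 hr hrR hB h1 h2 hF0 (hAB.trans (by gcongr))
    (fun z hz' h => hz z hz' (h4 z (ball_subset_ball hrR.le hz') h)) hw' (h5 w' hne hfw')
  rw [h6 hf0]
  linarith

end Pool.Agent.Helper94.ZF
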