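import Mathlib
import Pool.Agent.Helper94.ZF.Landau
import Pool.Agent.Helper11.MT.LBound2

/-!
The classical zero-free region near the line of absolute convergence.
-/

open Metric Complex ComplexConjugate Set DirichletCharacter
open ArithmeticFunction (vonMangoldt)

namespace Pool.Agent.Helper94.ZF

open Pool.Agent.Helper11.MT

/-- Twisted sums over prime powers, real abscissa. -/
noncomputable def TT (σ : ℝ) (F : ℕ → ℂ) : ℂ :=
  ∑' n : ℕ, ((vonMangoldt n * (n : ℝ) ^ (-σ) : ℝ) : ℂ) * F n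

lemma wt_nonneg (σ : ℝ) (n : ℕ) : 0 ≤ vonMangoldt n * (n : ℝ) ^ (-σ) :=
  mul_nonneg ArithmeticFunction.vonMangoldt_nonneg (by positivity)

lemma summable_wt {σ : ℝ} (hσ : 1 < σ) : Summable fun n : ℕ => vonMangoldt n * (n : ℝ) ^ (-σ) := by
  have h := (ArithmeticFunction.LSeriesSummable_vonMangoldt (s := (σ : ℂ)) (by simpa using hσ)).norm
  refine h.congr fun n => ?_
  rcases Nat.eq_zero_or_pos n with rfl | hn
  · simp
  · rw [LSeries.term_of_ne_zero hn.ne', norm_div, Complex.norm_natCast_cpow_of_pos hn,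
      Complex.norm_real, Real.norm_of_nonneg ArithmeticFunction.vonMangoldt_nonneg,
      Complex.ofReal_re, Real.rpow_neg (by positivity)]
    rfl

lemma summable_TT {σ : ℝ} (hσ : 1 < σ) {F : ℕ → ℂ} {C : ℝ} (hF : ∀ n, ‖F n‖ ≤ C) :
    Summable fun n : ℕ => ((vonMangoldt n * (n : ℝ) ^ (-σ) : ℝ) : ℂ) * F n := by
  refine Summable.of_norm_bounded ((summable_wt hσ).mul_right C) fun n => ?_
  rw [norm_mul, Complex.norm_real, Real.norm_of_nonneg (wt_nonneg σ n)]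
  exact mul_le_mul_of_nonneg_left (hF n) (wt_nonneg σ n)

lemma re_TT {σ : ℝ} (hσ : 1 < σ) {F : ℕ → ℂ} {C : ℝ} (hF : ∀ n, ‖F n‖ ≤ C) :
    (TT σ F).re = ∑' n : ℕ, (vonMangoldt n * (n : ℝ) ^ (-σ)) * (F n).re := by
  unfold TT
  rw [Complex.re_tsum (summable_TT hσ hF)]
  refine tsum_congr fun n => ?_
  rw [Complex.re_ofReal_mul]

lemma summable_re_TT {σ : ℝ} (hσ : 1 < σ) {F : ℕ → ℂ} {C : ℝ} (hF : ∀ n, ‖F n‖ ≤ C) :
    Summable fun n : ℕ => (vonMangoldt n * (n : ℝ) ^ (-σ)) * (F n).re := by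
  refine Summable.of_norm_bounded ((summable_wt hσ).mul_right C) fun n => ?_
  rw [norm_mul, Real.norm_of_nonneg (wt_nonneg σ n)]
  refine mul_le_mul_of_nonneg_left ?_ (wt_nonneg σ n)
  exact (Complex.abs_re_le_norm _).trans (hF n)

/-- The phase. -/
noncomputable def ph (τ : ℝ) (n : ℕ) : ℂ := (n : ℂ) ^ (-(τ * I))

lemma norm_ph_le (τ : ℝ) (n : ℕ) : ‖ph τ n‖ ≤ 1 := by
  unfold ph
  rcases Nat.eq_zero_or_pos n with rfl | hn
  · by_cases h : τ = 0
    · simp [h]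
    · rw [Nat.cast_zero, Complex.zero_cpow (by simp [h])]
      simp
  · rw [norm_cpow_I hn]

lemma norm_ph {τ : ℝ} {n : ℕ} (hn : 1 ≤ n) : ‖ph τ n‖ = 1 := norm_cpow_I hn τ

lemma ph_two {τ : ℝ} {n : ℕ} (hn : 1 ≤ n) : ph (2 * τ) n = ph τ n ^ 2 := by
  unfold ph
  have hn' : (n : ℂ) ≠ 0 := by exact_mod_cast (by omega : n ≠ 0)
  rw [← Complex.cpow_nat_mul]
  congr 1
  push_cast
  ring

/-- The negative logarithmic derivative is a twisted sum. -/
lemma LSeries_eq_TT (a : ℕ → ℂ) (σ τ : ℝ) :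
    LSeries (fun n : ℕ => a n * (vonMangoldt n : ℂ)) (σ + τ * I) = TT σ (fun n => a n * ph τ n) := by
  unfold LSeries TT
  refine tsum_congr fun n => ?_
  rcases Nat.eq_zero_or_pos n with rfl | hn
  · simp
  · rw [LSeries.term_of_ne_zero hn.ne']
    have hn' : (n : ℂ) ≠ 0 := by exact_mod_cast hn.ne'
    unfold ph
    beta_reduce
    rw [Complex.cpow_add _ _ hn', Complex.cpow_neg]
    have e : (((vonMangoldt n * (n : ℝ) ^ (-σ) : ℝ)) : ℂ) = (vonMangoldt n : ℂ) * ((n : ℂ) ^ (σ : ℂ))⁻¹ := by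
      rw [Complex.ofReal_mul, Complex.ofReal_cpow (by positivity), Complex.ofReal_neg,
        Complex.cpow_neg]
      rfl
    rw [e]
    have h1 : (n : ℂ) ^ (σ : ℂ) ≠ 0 := by
      rw [Complex.cpow_ne_zero_iff]; left; exact hn'
    have h2 : (n : ℂ) ^ ((τ : ℂ) * I) ≠ 0 := by
      rw [Complex.cpow_ne_zero_iff]; left; exact hn'
    field_simp

/-- The negative logarithmic derivative. -/
noncomputable def LD {N : ℕ} [NeZero N] (χ : DirichletCharacter ℂ N) (s : ℂ) : ℂ :=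
  deriv (LFunction χ) s / LFunction χ s

lemma neg_LD_eq {N : ℕ} [NeZero N] (χ : DirichletCharacter ℂ N) {σ : ℝ} (hσ : 1 < σ) (τ : ℝ) :
    -LD χ (σ + τ * I) = TT σ (fun n => χ n * ph τ n) := by
  have hs : 1 < ((σ : ℂ) + τ * I).re := by simpa using hσ
  have h := LSeries_twist_vonMangoldt_eq χ hs
  rw [← LSeries_eq_TT, LD, deriv_LFunction_eq_deriv_LSeries χ hs, LFunction_eq_LSeries χ hs, ← neg_div,
    ← h]
  rfl

/-- For the zeta function. -/
lemma neg_zeta_eq {σ : ℝ} (hσ : 1 < σ) (τ : ℝ) :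
    -deriv riemannZeta (σ + τ * I) / riemannZeta (σ + τ * I) = TT σ (fun n => ph τ n) := by
  have hs : 1 < ((σ : ℂ) + τ * I).re := by simpa using hσ
  rw [← ArithmeticFunction.LSeries_vonMangoldt_eq_deriv_riemannZeta_div hs]
  have h := LSeries_eq_TT (fun _ => 1) σ τ
  simp only [one_mul] at h
  exact h

/-- The bound for the zeta function to the right of `1`. -/
lemma exists_zeta_ld_bound : ∃ C : ℝ, 0 ≤ C ∧ ∀ σ τ : ℝ, 1 < σ → σ ≤ 2 → |τ| ≤ 3 →
    (TT σ (fun n => ph τ n)).re ≤ (σ - 1) / ((σ - 1) ^ 2 + τ ^ 2) + C := by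
  have hK : IsCompact ((fun p : ℝ × ℝ => (p.1 : ℂ) + p.2 * I) '' (Icc (1 : ℝ) 2 ×ˢ Icc (-3 : ℝ) 3)) :=
    (isCompact_Icc.prod isCompact_Icc).image (by fun_prop)
  have hcont : ContinuousOn (fun s => -deriv (LFunctionTrivChar₁ 1) s / LFunctionTrivChar₁ 1 s)
      ((fun p : ℝ × ℝ => (p.1 : ℂ) + p.2 * I) '' (Icc (1 : ℝ) 2 ×ˢ Icc (-3 : ℝ) 3)) := by
    refine (continuousOn_neg_logDeriv_LFunctionTrivChar₁ 1).mono ?_
    rintro s ⟨⟨σ, τ⟩, ⟨h1, h2⟩, rfl⟩
    simp only at h1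
    by_cases h : ((σ : ℂ) + τ * I) = 1
    · exact Or.inl h
    · refine Or.inr (LFunction_ne_zero_of_one_le_re _ (.inr h) ?_)
      simpa using h1.1
  obtain ⟨C, hC⟩ := hK.exists_bound_of_continuousOn hcont
  refine ⟨|C|, abs_nonneg _, fun σ τ hσ hσ2 hτ => ?_⟩
  have hs : 1 < ((σ : ℂ) + τ * I).re := by simpa using hσ
  have hs1 : ((σ : ℂ) + τ * I) ≠ 1 := by
    intro h
    rw [h] at hs
    simp at hs
  have h1 := hC (σ + τ * I) ⟨(σ, τ), ⟨⟨hσ.le, hσ2⟩, abs_le.mp hτ⟩, rfl⟩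
  rw [deriv_LFunctionTrivChar₁_apply_of_ne_one 1 hs1] at h1
  rw [← neg_zeta_eq hσ]
  set s : ℂ := (σ : ℂ) + τ * I with hsdef
  have hne : riemannZeta s ≠ 0 := riemannZeta_ne_zero_of_one_le_re hs.le
  have hG : LFunctionTrivChar₁ 1 s = (s - 1) * riemannZeta s := by
    rw [LFunctionTrivChar₁, Function.update_of_ne hs1, LFunctionTrivChar, LFunction_modOne_eq]
  rw [hG, LFunctionTrivChar, LFunction_modOne_eq] at h1
  have h3 : s - 1 ≠ 0 := sub_ne_zero_of_ne hs1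
  have h4 : -deriv riemannZeta s / riemannZeta s = (s - 1)⁻¹ +
      -((s - 1) * deriv riemannZeta s + riemannZeta s) / ((s - 1) * riemannZeta s) := by
    field_simp
    ring
  rw [h4, Complex.add_re]
  refine add_le_add (le_of_eq ?_) ?_
  · rw [Complex.inv_re, Complex.normSq_apply]
    have e1 : (s - 1).re = σ - 1 := by simp [hsdef]
    have e2 : (s - 1).im = τ := by simp [hsdef]
    rw [e1, e2, sq, sq]
  · exact ((Complex.re_le_norm _).trans h1).trans (le_abs_self C)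

/-- A bound in a larger disc. -/
lemma norm_LFunction_le_disc {N : ℕ} [NeZero N] {χ : DirichletCharacter ℂ N} (hχ : χ ≠ 1)
    {σ τ : ℝ} (hσ : |σ - 2| ≤ 7 / 5) (hτ : |τ| ≤ 3) :
    ‖LFunction χ (σ + τ * I)‖ ≤ 105 * K32 * N := by
  have hK := K32_nonneg
  have hsum := hasSum_LFunction hχ σ τ
  have hg := (hasSum_geometric_of_lt_one (r := (14 / 15 : ℝ)) (by norm_num) (by norm_num)).mul_left
    (7 * K32 * N)
  have hterm : ∀ i : ℕ, ‖((σ - 2 : ℝ) : ℂ) ^ i * ((-1) ^ i * ∑' n : ℕ, χ n * wτ τ i n)‖ ≤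
      7 * K32 * N * (14 / 15) ^ i := by
    intro i
    rw [norm_mul, norm_mul, norm_pow, norm_pow, norm_neg, norm_one, one_pow, one_mul,
      Complex.norm_real, Real.norm_eq_abs]
    calc |σ - 2| ^ i * ‖∑' n : ℕ, χ n * wτ τ i n‖ ≤
        (7 / 5) ^ i * (N * ((4 + |τ|) * ((2 / 3) ^ i * K32))) := by
          gcongr
          exact norm_tsum_char_wτ_le hχ τ i
      _ ≤ (7 / 5) ^ i * (N * ((4 + 3) * ((2 / 3) ^ i * K32))) := by gcongr
      _ = 7 * K32 * N * ((7 / 5) * (2 / 3)) ^ i := by rw [mul_pow]; ring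
      _ = 7 * K32 * N * (14 / 15) ^ i := by norm_num
  have hle := tsum_of_norm_bounded hg hterm
  rw [hsum.tsum_eq] at hle
  refine hle.trans (le_of_eq ?_)
  norm_num
  ring

/-- A lower bound to the right of `1`. -/
lemma exists_recip_bound : ∃ C : ℝ, 1 ≤ C ∧ ∀ (N : ℕ) [NeZero N] (χ : DirichletCharacter ℂ N)
    (η : ℝ) (s : ℂ), 0 < η → η ≤ 3 → 1 + η ≤ s.re → η ≤ C * ‖LFunction χ s‖ := by
  obtain ⟨C, hC1, hC⟩ := exists_zeta_bound
  refine ⟨C, hC1, fun N _ χ η s hη hη3 hs => ?_⟩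
  have hs1 : 1 < s.re := by linarith
  have hmul := LSeries.mul_mu_eq_one χ hs1
  have hsumm : Summable fun n : ℕ => (n : ℝ) ^ (-(1 + η)) :=
    Real.summable_nat_rpow.mpr (by linarith)
  have hz : ((∑' n : ℕ, (n : ℝ) ^ (-(1 + η)) : ℝ) : ℂ) = riemannZeta (1 + η) := by
    rw [zeta_eq_tsum_one_div_nat_cpow (by simpa using hη), Complex.ofReal_tsum]
    refine tsum_congr fun n => ?_
    rw [Complex.ofReal_cpow (by positivity), Complex.ofReal_neg, Complex.cpow_neg, one_div]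
    push_cast
    rfl
  have hzn : ∑' n : ℕ, (n : ℝ) ^ (-(1 + η)) ≤ C / η := by
    have h1 := hC η hη hη3
    rw [← hz, Complex.norm_real] at h1
    exact (Real.le_norm_self _).trans h1
  have hmu : ‖LSeries ((fun n : ℕ => χ n) * fun n : ℕ => (ArithmeticFunction.moebius n : ℂ)) s‖ ≤
      C / η := by
    refine le_trans ?_ hzn
    refine tsum_of_norm_bounded hsumm.hasSum fun n => ?_
    rcases Nat.eq_zero_or_pos n with rfl | hn
    · simp only [LSeries.term_zero, norm_zero]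
      positivity
    · rw [LSeries.term_of_ne_zero hn.ne', norm_div, Complex.norm_natCast_cpow_of_pos hn,
        Real.rpow_neg (by positivity), Pi.mul_apply, norm_mul]
      have h1 : ‖χ n‖ ≤ 1 := χ.norm_le_one _
      have h2 : ‖(ArithmeticFunction.moebius n : ℂ)‖ ≤ 1 := by
        rw [Complex.norm_intCast]
        exact_mod_cast ArithmeticFunction.abs_moebius_le_one
      have h3 : (n : ℝ) ^ (1 + η) ≤ (n : ℝ) ^ s.re :=
        Real.rpow_le_rpow_of_exponent_le (by exact_mod_cast hn) hs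
      have h4 : (0 : ℝ) < (n : ℝ) ^ (1 + η) := by positivity
      calc ‖χ n‖ * ‖(ArithmeticFunction.moebius n : ℂ)‖ / (n : ℝ) ^ s.re ≤
          1 * 1 / (n : ℝ) ^ (1 + η) := by gcongr
        _ = _ := by rw [mul_one, one_div]
  have h5 := congrArg norm hmul
  rw [norm_mul, norm_one] at h5
  rw [LFunction_eq_LSeries χ hs1]
  have h6 : 1 ≤ ‖LSeries (fun n : ℕ => χ n) s‖ * (C / η) := by
    rw [← h5]
    gcongr
  have h7 : ‖LSeries (fun n : ℕ => χ n) s‖ * (C / η) * η = C * ‖LSeries (fun n : ℕ => χ n) s‖ := by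
    field_simp
  calc η = 1 * η := (one_mul _).symm
    _ ≤ ‖LSeries (fun n : ℕ => χ n) s‖ * (C / η) * η := by gcongr
    _ = _ := h7

/-- Landau's lemma applied to `L`. -/
theorem exists_ld_lower : ∃ C : ℝ, 1 ≤ C ∧ ∀ (N : ℕ) [NeZero N] (χ : DirichletCharacter ℂ N),
    χ ≠ 1 → ∀ l : ℕ, 8 ≤ l → (N : ℝ) ≤ (4 / 3) ^ l → ∀ η τ : ℝ, 1 / (l : ℝ) ^ 2 ≤ η → η ≤ 1 / 10 →
    |τ| ≤ 13 / 5 →
    (-(C * l) ≤ (LD χ ((1 + η : ℝ) + τ * I)).re) ∧
    (∀ β : ℝ, 9 / 10 ≤ β → LFunction χ (β + τ * I) = 0 →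
      1 / (1 + η - β) - C * l ≤ (LD χ ((1 + η : ℝ) + τ * I)).re) ∧
    (τ = 0 → ∀ β γ : ℝ, 9 / 10 ≤ β → γ ≠ 0 → |γ| ≤ 1 / 10 → LFunction χ (β + γ * I) = 0 →
      LFunction χ (β + (-γ : ℝ) * I) = 0 →
      2 * (1 + η - β) / ((1 + η - β) ^ 2 + γ ^ 2) - C * l ≤ (LD χ ((1 + η : ℝ) + τ * I)).re) := by
  obtain ⟨Cζ, hCζ, hrec⟩ := exists_recip_bound
  have hK := K32_nonneg
  set C' : ℝ := 105 * K32 * Cζ with hC'
  have hC'0 : 0 ≤ C' := by positivity
  refine ⟨10 * (C' + 3) + 4, by linarith, ?_⟩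
  intro N _ χ hχ l hl hN η τ hη1 hη2 hτ
  have hl' : (8 : ℝ) ≤ l := by exact_mod_cast hl
  have hη0 : 0 < η := lt_of_lt_of_le (by positivity) hη1
  set s0 : ℂ := ((1 + η : ℝ) : ℂ) + τ * I with hs0
  set f : ℂ → ℂ := fun z => LFunction χ (s0 + z) with hf
  have hfd : Differentiable ℂ f := (differentiable_LFunction hχ).comp (by fun_prop)
  have hτ' := abs_le.mp hτ
  have hre : s0.re = 1 + η := by simp [hs0]
  have him : s0.im = τ := by simp [hs0]
  have hA : ∀ z ∈ sphere (0 : ℂ) (2 / 5), ‖f z‖ ≤ 105 * K32 * N := by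
    intro z hz
    rw [mem_sphere_zero_iff_norm] at hz
    have h1 := (Complex.abs_re_le_norm z).trans hz.le
    have h2 := (Complex.abs_im_le_norm z).trans hz.le
    rw [abs_le] at h1 h2
    have h3 := norm_LFunction_le_disc hχ (σ := (s0 + z).re) (τ := (s0 + z).im) (by
      rw [Complex.add_re, hre, abs_le]
      constructor <;> linarith [h1.1, h1.2]) (by
      rw [Complex.add_im, him, abs_le]
      constructor <;> linarith [h2.1, h2.2, hτ'.1, hτ'.2])
    rwa [Complex.re_add_im] at h3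
  have hf0 : f 0 = LFunction χ s0 := by simp [hf]
  have hf0' : f 0 ≠ 0 := by
    rw [hf0]
    exact LFunction_ne_zero_of_one_le_re χ (.inl hχ) (by rw [hre]; linarith)
  have hlow : η ≤ Cζ * ‖f 0‖ := by
    rw [hf0]
    exact hrec N χ η s0 hη0 (by linarith) hre.ge
  have hBpos : 0 < (C' + 3) * l := by positivity
  have hAB : 105 * K32 * N ≤ Real.exp ((C' + 3) * l) * ‖f 0‖ := by
    have e1 : (4 / 3 : ℝ) ^ l ≤ Real.exp l := by
      rw [← Real.exp_one_pow]
      have := Real.exp_one_gt_d9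
      gcongr
      linarith
    have e2 : (l : ℝ) ^ 2 ≤ Real.exp (2 * l) := by
      have h1 : (l : ℝ) ≤ Real.exp l := by linarith [Real.add_one_le_exp (l : ℝ)]
      calc (l : ℝ) ^ 2 ≤ (Real.exp l) ^ 2 := by gcongr
        _ = Real.exp (2 * l) := by rw [← Real.exp_nat_mul]; norm_num
    have e3 : C' ≤ Real.exp (C' * l) := by
      have h1 : C' ≤ Real.exp C' := by linarith [Real.add_one_le_exp C']
      refine h1.trans (Real.exp_le_exp.mpr ?_)
      exact le_mul_of_one_le_right hC'0 (by linarith)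
    have e4 : 1 ≤ (l : ℝ) ^ 2 * η := by
      rw [div_le_iff₀ (by positivity)] at hη1
      linarith
    have e5 : 105 * K32 * N ≤ C' * (4 / 3) ^ l * (l : ℝ) ^ 2 * ‖f 0‖ := by
      calc 105 * K32 * N ≤ 105 * K32 * (4 / 3) ^ l := by gcongr
        _ = 105 * K32 * (4 / 3) ^ l * 1 := by ring
        _ ≤ 105 * K32 * (4 / 3) ^ l * ((l : ℝ) ^ 2 * η) := by gcongr
        _ ≤ 105 * K32 * (4 / 3) ^ l * ((l : ℝ) ^ 2 * (Cζ * ‖f 0‖)) := by gcongr
        _ = _ := by rw [hC']; ring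
    refine e5.trans ?_
    refine mul_le_mul_of_nonneg_right ?_ (norm_nonneg _)
    calc C' * (4 / 3) ^ l * (l : ℝ) ^ 2 ≤ Real.exp (C' * l) * Real.exp l * Real.exp (2 * l) := by
          gcongr
      _ = Real.exp ((C' + 3) * l) := by rw [← Real.exp_add, ← Real.exp_add]; ring_nf
  have hz : ∀ z ∈ ball (0 : ℂ) (1 / 5), f z = 0 → z.re ≤ 0 := by
    intro z _ h
    by_contra hc
    push Not at hc
    exact LFunction_ne_zero_of_one_le_re χ (.inl hχ) (by rw [Complex.add_re, hre]; linarith) h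
  have hderiv : deriv f 0 / f 0 = LD χ s0 := by
    have h1 : HasDerivAt f (deriv (LFunction χ) s0) 0 := by
      have h2 := ((differentiable_LFunction hχ) (s0 + 0)).hasDerivAt
      have h3 := h2.comp_const_add s0 0
      simpa using h3
    rw [h1.deriv, hf0]
    rfl
  have hBr : 2 * ((C' + 3) * l) / (1 / 5 : ℝ) = 10 * (C' + 3) * l := by ring
  have hfin : (10 * (C' + 3) + 4) * (l : ℝ) = 10 * (C' + 3) * l + 4 * l := by ring
  have hdc : DiffContOnCl ℂ f (ball 0 (2 / 5)) := hfd.diffContOnCl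
  refine ⟨?_, ?_, ?_⟩
  · have h := landau0 (by norm_num : (0 : ℝ) < 1 / 5) (by norm_num) hBpos hdc hA hf0' hAB hz
    rw [hderiv, hBr] at h
    refine le_trans ?_ h
    rw [hfin]
    linarith
  · intro β hβ h0
    have hβ1 : β < 1 := by
      by_contra hc
      push Not at hc
      exact LFunction_ne_zero_of_one_le_re χ (.inl hχ) (by simpa using hc) h0
    have hw : (s0 + ((β - 1 - η : ℝ) : ℂ)) = β + τ * I := by
      rw [hs0]; push_cast; ring
    have h := landau1 (by norm_num : (0 : ℝ) < 1 / 5) (by norm_num) hBpos hdc hA hf0' hAB hz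
      (w := ((β - 1 - η : ℝ) : ℂ)) (by
        rw [Complex.norm_real, Real.norm_eq_abs, abs_lt]
        constructor <;> linarith) (by simp only [hf]; rw [hw]; exact h0)
    rw [hderiv, hBr, Complex.ofReal_re, Complex.norm_real, Real.norm_eq_abs, sq_abs] at h
    refine le_trans ?_ h
    have hd : 0 < 1 + η - β := by linarith
    have e1 : -(β - 1 - η) * (1 / (β - 1 - η) ^ 2 - 1 / (2 / 5) ^ 2) =
        1 / (1 + η - β) - 25 / 4 * (1 + η - β) := by
      have : β - 1 - η = -(1 + η - β) := by ring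
      rw [this]
      field_simp
      ring
    rw [e1, hfin]
    linarith
  · intro hτ0 β γ hβ hγ hγ2 h0 h0'
    have hβ1 : β < 1 := by
      by_contra hc
      push Not at hc
      exact LFunction_ne_zero_of_one_le_re χ (.inl hχ) (by simpa using hc) h0
    have hd : 0 < 1 + η - β := by linarith
    have hnorm : ∀ γ : ℝ, ‖((β - 1 - η : ℝ) : ℂ) + γ * I‖ ^ 2 = (1 + η - β) ^ 2 + γ ^ 2 := by
      intro γ
      rw [← Complex.normSq_eq_norm_sq, Complex.normSq_add_mul_I]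
      ring
    have hnlt : ∀ γ : ℝ, |γ| ≤ 1 / 10 → ‖((β - 1 - η : ℝ) : ℂ) + γ * I‖ < 2 / 5 := by
      intro γ hγ
      have h1 := hnorm γ
      have h2 : γ ^ 2 ≤ (1 / 10) ^ 2 := sq_le_sq' (by linarith [(abs_le.mp hγ).1]) (abs_le.mp hγ).2
      have h3 : (1 + η - β) ^ 2 ≤ (1 / 5) ^ 2 := by
        apply sq_le_sq' <;> linarith
      refine lt_of_pow_lt_pow_left₀ 2 (by norm_num) ?_
      rw [h1]
      linarith
    have hw : ∀ γ : ℝ, (s0 + (((β - 1 - η : ℝ) : ℂ) + γ * I)) = β + γ * I := by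
      intro γ
      rw [hs0, hτ0]; push_cast; ring
    have h := landau2 (by norm_num : (0 : ℝ) < 1 / 5) (by norm_num) hBpos hdc hA hf0' hAB hz
      (w := ((β - 1 - η : ℝ) : ℂ) + γ * I) (w' := ((β - 1 - η : ℝ) : ℂ) + (-γ : ℝ) * I)
      (hnlt γ hγ2) (by simp only [hf]; rw [hw]; exact h0)
      (hnlt (-γ) (by rwa [abs_neg])) (by simp only [hf]; rw [hw]; exact h0') (by
        intro h
        have := congrArg Complex.im h
        simp at this
        apply hγ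
        linarith)
    have hrew : ∀ γ : ℝ, (((β - 1 - η : ℝ) : ℂ) + γ * I).re = β - 1 - η := by
      intro γ; simp
    rw [hderiv, hBr, hrew, hrew, hnorm, hnorm] at h
    refine le_trans ?_ h
    have hg2 : 0 < (1 + η - β) ^ 2 + γ ^ 2 := by positivity
    have e1 : -(β - 1 - η) * (1 / ((1 + η - β) ^ 2 + γ ^ 2) - 1 / (2 / 5) ^ 2) +
        -(β - 1 - η) * (1 / ((1 + η - β) ^ 2 + (-γ) ^ 2) - 1 / (2 / 5) ^ 2) =
        2 * (1 + η - β) / ((1 + η - β) ^ 2 + γ ^ 2) - 25 / 2 * (1 + η - β) := by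
      have : (-γ) ^ 2 = γ ^ 2 := by ring
      rw [this]
      field_simp
      ring
    rw [add_assoc, e1, hfin]
    linarith

end Pool.Agent.Helper94.ZF
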