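import Mathlib
import Pool.Agent.Helper94.ZF.Region
import Pool.Agent.Helper11.MT.Conv

/-!
The bound for the transforms of the Moebius function in a zero-free region.
-/

open Metric Complex ComplexConjugate Set DirichletCharacter
open ArithmeticFunction (vonMangoldt)

namespace Pool.Agent.Helper94.ZF

open Pool.Agent.Helper11.MT

/-- The lower bound for `L` inside a zero-free region. -/
lemma norm_LFunction_ge_of_zero_free {C1 Cζ : ℝ} (hC1 : 1 ≤ C1) (hCζ : 1 ≤ Cζ)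
    (hrec : ∀ (N : ℕ) [NeZero N] (χ : DirichletCharacter ℂ N)
      (η : ℝ) (s : ℂ), 0 < η → η ≤ 3 → 1 + η ≤ s.re → η ≤ Cζ * ‖LFunction χ s‖)
    {N : ℕ} [NeZero N] {χ : DirichletCharacter ℂ N} (hχ : χ ≠ 1) {l : ℕ} (hl : 8 ≤ l)
    (hC : ∀ σ τ : ℝ, |σ - 2| ≤ 1 + 1 / l → |τ| ≤ 3 → ‖LFunction χ (σ + τ * I)‖ ≤ C1 * l)
    {δ : ℝ} (hδ : 0 < δ) (hδl : 6 * δ ≤ 1 / l)
    (hzf : ∀ β γ : ℝ, 1 - 2 * δ ≤ β → |γ| ≤ 5 / 4 → LFunction χ (β + γ * I) ≠ 0) {s : ℂ}
    (hs : s ∈ closedBall (2 : ℂ) (1 + δ)) :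
    (δ / Cζ) * (δ / (C1 * l * Cζ)) ^ 4 ≤ ‖LFunction χ s‖ := by
  have hl' : (8 : ℝ) ≤ l := by exact_mod_cast hl
  have h1l : 1 / (l : ℝ) ≤ 1 / 8 := one_div_le_one_div_of_le (by norm_num) hl'
  have hC1' : 0 < C1 := by linarith
  have hCζ' : 0 < Cζ := by linarith
  rw [mem_closedBall, dist_eq_norm] at hs
  have hre : |s.re - 2| ≤ 1 + δ := by
    have := (Complex.abs_re_le_norm (s - 2)).trans hs
    simpa using this
  have him : |s.im| ≤ 1 + δ := by
    have := (Complex.abs_im_le_norm (s - 2)).trans hs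
    simpa using this
  rw [abs_le] at hre him
  set s1 : ℂ := s + (2 * δ : ℝ) with hs1
  have hs1re : s1.re = s.re + 2 * δ := by simp [hs1]
  have hs1im : s1.im = s.im := by simp [hs1]
  set f : ℂ → ℂ := fun z => LFunction χ (s1 + z) with hf
  have hfd : Differentiable ℂ f := (differentiable_LFunction hχ).comp (by fun_prop)
  have hpt : ∀ z ∈ ball (0 : ℂ) (3 * δ), |z.re| < 3 * δ ∧ |z.im| < 3 * δ := by
    intro z hz
    rw [mem_ball_zero_iff] at hz
    exact ⟨(Complex.abs_re_le_norm z).trans_lt hz, (Complex.abs_im_le_norm z).trans_lt hz⟩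
  have hne : ∀ z ∈ ball (0 : ℂ) (3 * δ), f z ≠ 0 := by
    intro z hz
    obtain ⟨h1, h2⟩ := hpt z hz
    rw [abs_lt] at h1 h2
    have h3 := hzf (s1 + z).re (s1 + z).im (by
      rw [Complex.add_re, hs1re]; linarith [h1.1, hre.1]) (by
      rw [Complex.add_im, hs1im, abs_le]
      constructor <;> linarith [h2.1, h2.2, him.1, him.2])
    rwa [Complex.re_add_im] at h3
  have hup : ∀ z ∈ ball (0 : ℂ) (3 * δ), ‖f z‖ ≤ C1 * l := by
    intro z hz
    obtain ⟨h1, h2⟩ := hpt z hz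
    rw [abs_lt] at h1 h2
    have h3 := hC (s1 + z).re (s1 + z).im (by
      rw [Complex.add_re, hs1re, abs_le]
      constructor <;> linarith [h1.1, h1.2, hre.1, hre.2]) (by
      rw [Complex.add_im, hs1im, abs_le]
      constructor <;> linarith [h2.1, h2.2, him.1, him.2])
    rwa [Complex.re_add_im] at h3
  have h3δ : 0 < 3 * δ := by linarith
  have h0m : (0 : ℂ) ∈ ball (0 : ℂ) (3 * δ) := mem_ball_self h3δ
  have hf0 : δ / Cζ ≤ ‖f 0‖ := by
    have h1 := hrec N χ δ s1 hδ (by linarith) (by rw [hs1re]; linarith [hre.1])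
    rw [div_le_iff₀ hCζ']
    simp only [hf, add_zero]
    linarith
  have hf0pos : 0 < ‖f 0‖ := lt_of_lt_of_le (by positivity) hf0
  obtain ⟨h, hh0, hh, hf2⟩ := exists_log_ball (c := 0) h3δ hfd.differentiableOn hne
  set Q : ℝ := C1 * l * Cζ / δ with hQ
  have hQ1 : 1 < Q := by
    rw [hQ, one_lt_div hδ]
    have h1 : δ ≤ 1 / 48 := by linarith
    have h2 : 1 ≤ C1 * l * Cζ := by
      have : 1 ≤ C1 * l := by nlinarith
      nlinarith
    linarith
  have hQpos : 0 < Q := by linarith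
  have hB : 0 < Real.log Q := Real.log_pos hQ1
  have hreh : ∀ z ∈ ball (0 : ℂ) (3 * δ), (h z).re ≤ Real.log Q := by
    intro z hz
    have h1 := hup z hz
    rw [hf2 z hz, norm_mul, Complex.norm_exp] at h1
    rw [Real.le_log_iff_exp_le hQpos]
    have h2 : ‖f 0‖ * Real.exp (h z).re ≤ ‖f 0‖ * Q := by
      refine h1.trans ?_
      calc C1 * l = (δ / Cζ) * Q := by rw [hQ]; field_simp
        _ ≤ ‖f 0‖ * Q := by gcongr
    exact le_of_mul_le_mul_left h2 hf0pos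
  have hz0 : ((-(2 * δ) : ℝ) : ℂ) ∈ ball (0 : ℂ) (3 * δ) := by
    rw [mem_ball_zero_iff, Complex.norm_real, Real.norm_eq_abs, abs_neg, abs_of_pos (by linarith)]
    linarith
  have hbc := borelCaratheodory_zero hB
    (fun w hw => (hh w hw).differentiableAt.differentiableWithinAt)
    (fun w hw => hreh w hw) h3δ hz0 hh0
  have hnz : ‖((-(2 * δ) : ℝ) : ℂ)‖ = 2 * δ := by
    rw [Complex.norm_real, Real.norm_eq_abs, abs_neg, abs_of_pos (by linarith)]
  rw [hnz] at hbc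
  have hbc2 : ‖h ((-(2 * δ) : ℝ) : ℂ)‖ ≤ 4 * Real.log Q := by
    refine hbc.trans (le_of_eq ?_)
    have : 3 * δ - 2 * δ = δ := by ring
    rw [this]
    field_simp
    ring
  have hfs : f ((-(2 * δ) : ℝ) : ℂ) = LFunction χ s := by
    simp only [hf, hs1]
    congr 1
    push_cast
    ring
  rw [← hfs, hf2 _ hz0, norm_mul, Complex.norm_exp]
  have h5 : -(4 * Real.log Q) ≤ (h ((-(2 * δ) : ℝ) : ℂ)).re := by
    have h6 := Complex.abs_re_le_norm (h ((-(2 * δ) : ℝ) : ℂ))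
    have h7 := neg_abs_le (h ((-(2 * δ) : ℝ) : ℂ)).re
    linarith
  have h6 : (δ / (C1 * l * Cζ)) ^ 4 = Real.exp (-(4 * Real.log Q)) := by
    have e1 : δ / (C1 * l * Cζ) = Q⁻¹ := by rw [hQ, inv_div]
    rw [e1, Real.exp_neg, ← Real.exp_log hQpos, ← Real.exp_neg, ← Real.exp_nat_mul,
      Real.exp_log hQpos, ← Real.exp_neg]
    congr 1
    push_cast
    ring
  rw [h6]
  gcongr

/-- The transforms of the Moebius function. -/
theorem exists_mu_bound : ∃ C : ℝ, 1 ≤ C ∧ ∀ (N : ℕ) [NeZero N] (χ : DirichletCharacter ℂ N),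
    χ ≠ 1 → ∀ l : ℕ, 8 ≤ l → (N : ℝ) ≤ (4 / 3) ^ l → ∀ κ : ℝ, 0 < κ → κ ≤ 1 / 10 →
    (∀ β γ : ℝ, 1 - κ / l ≤ β → |γ| ≤ 5 / 4 → LFunction χ (β + γ * I) ≠ 0) → ∀ c : ℕ,
    ‖MM (fun n => χ n) c (fun n => (ArithmeticFunction.moebius n : ℝ))‖ ≤
      C * (l : ℝ) ^ 9 / κ ^ 5 / (1 + κ / (4 * l)) ^ c := by
  obtain ⟨B, hB1, hB⟩ := exists_Omega_bound
  obtain ⟨Cζ, hCζ, hrec⟩ := exists_recip_bound
  have hK := K32_nonneg
  set C1 : ℝ := 3 * B + 28 * K32 with hC1def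
  have hC1 : 1 ≤ C1 := by rw [hC1def]; linarith
  have hC1' : 0 < C1 := by linarith
  have hCζ' : 0 < Cζ := by linarith
  have hCC : 1 ≤ 4 ^ 5 * C1 ^ 4 * Cζ ^ 5 := by
    have h1 : (1 : ℝ) ≤ C1 ^ 4 := one_le_pow₀ hC1
    have h2 : (1 : ℝ) ≤ Cζ ^ 5 := one_le_pow₀ hCζ
    nlinarith
  refine ⟨4 ^ 5 * C1 ^ 4 * Cζ ^ 5, hCC, ?_⟩
  intro N _ χ hχ l hl hN κ hκ hκ1 hzf c
  have hl' : (8 : ℝ) ≤ l := by exact_mod_cast hl
  have hlpos : (0 : ℝ) < l := by linarith
  have hC : ∀ σ τ : ℝ, |σ - 2| ≤ 1 + 1 / l → |τ| ≤ 3 → ‖LFunction χ (σ + τ * I)‖ ≤ C1 * l :=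
    fun σ τ h1 h2 => norm_LFunction_le_aux hB1 hB hχ hl hN h1 h2
  set δ : ℝ := κ / (4 * l) with hδ
  have hδpos : 0 < δ := by positivity
  have hδl : 6 * δ ≤ 1 / l := by
    rw [hδ, ← mul_div_assoc, div_le_div_iff₀ (by positivity) hlpos]
    nlinarith
  have h4δ : κ / l = 4 * δ := by rw [hδ]; field_simp
  have hlow := fun {s : ℂ} (hs : s ∈ closedBall (2 : ℂ) (1 + δ)) =>
    norm_LFunction_ge_of_zero_free hC1 hCζ hrec hχ hl hC hδpos hδl
      (fun β γ h1 h2 => hzf β γ (by rw [h4δ]; linarith) h2) hs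
  set m0 : ℝ := (δ / Cζ) * (δ / (C1 * l * Cζ)) ^ 4 with hm0
  have hm0pos : 0 < m0 := by positivity
  set g : ℂ → ℂ := fun s => (LFunction χ s)⁻¹ with hg
  have hne : ∀ s ∈ closedBall (2 : ℂ) (1 + δ), LFunction χ s ≠ 0 := by
    intro s hs h0
    have := hlow hs
    rw [h0, norm_zero] at this
    linarith
  have hgd : DifferentiableOn ℂ g (closedBall 2 (1 + δ)) := by
    intro s hs
    exact ((differentiable_LFunction hχ s).inv (hne s hs)).differentiableWithinAt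
  have hgb : ∀ z ∈ sphere (2 : ℂ) (1 + δ), ‖g z‖ ≤ 1 / m0 := by
    intro z hz
    simp only [hg, norm_inv]
    rw [← one_div]
    exact one_div_le_one_div_of_le hm0pos (hlow (sphere_subset_closedBall hz))
  have hcauchy := Complex.norm_iteratedDeriv_le_of_forall_mem_sphere_norm_le (n := c)
    (by positivity : 0 < 1 + δ) (hgd.diffContOnCl_ball le_rfl) hgb
  have h1 : iteratedDeriv c g 2 =
      iteratedDeriv c (LSeries (fun n : ℕ => χ n * (ArithmeticFunction.moebius n : ℂ))) 2 := by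
    apply Filter.EventuallyEq.iteratedDeriv_eq
    filter_upwards [eventually_re_gt_one] with s hs
    have h2 := LSeries.mul_mu_eq_one χ hs
    simp only [hg]
    rw [LFunction_eq_LSeries χ hs]
    exact inv_eq_of_mul_eq_one_right h2
  have habs : LSeries.abscissaOfAbsConv (fun n : ℕ => χ n * (ArithmeticFunction.moebius n : ℂ)) < 2 := by
    have h : LSeries.abscissaOfAbsConv (fun n : ℕ => χ n * (ArithmeticFunction.moebius n : ℂ)) ≤ 1 := by
      apply LSeries.abscissaOfAbsConv_le_of_forall_lt_LSeriesSummable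
      intro y hy
      exact LSeriesSummable_mul χ (ArithmeticFunction.LSeriesSummable_moebius_iff.mpr
        (by simpa using hy))
    exact lt_of_le_of_lt h (by norm_num)
  have h2 : MM (fun n => χ n) c (fun n => (ArithmeticFunction.moebius n : ℝ)) =
      ∑' n : ℕ, (χ n * (ArithmeticFunction.moebius n : ℂ)) * (w c n : ℂ) := by
    unfold MM
    refine tsum_congr fun n => ?_
    push_cast
    ring
  rw [h2, tsum_eq_iteratedDeriv' habs c, ← h1]
  have h3 : (0 : ℝ) < c.factorial := by exact_mod_cast c.factorial_pos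
  rw [norm_div, norm_mul, norm_pow, norm_neg, norm_one, one_pow, one_mul, Complex.norm_natCast,
    div_le_iff₀ h3]
  refine hcauchy.trans (le_of_eq ?_)
  have e2 : 1 / m0 = 4 ^ 5 * C1 ^ 4 * Cζ ^ 5 * (l : ℝ) ^ 9 / κ ^ 5 := by
    rw [hm0, hδ]
    field_simp
  rw [e2]
  ring

end Pool.Agent.Helper94.ZF
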