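import Mathlib
import Pool.Agent.Helper94.ZF.Region

/-!
The classical zero-free region and Page's theorem.
-/

open Metric Complex ComplexConjugate Set DirichletCharacter
open ArithmeticFunction (vonMangoldt)

namespace Pool.Agent.Helper94.ZF

open Pool.Agent.Helper11.MT

lemma comb_nonneg {σ : ℝ} (hσ : 1 < σ) {F1 F2 F3 F4 : ℕ → ℂ} (h1 : ∀ n, ‖F1 n‖ ≤ 1)
    (h2 : ∀ n, ‖F2 n‖ ≤ 1) (h3 : ∀ n, ‖F3 n‖ ≤ 1) (h4 : ∀ n, ‖F4 n‖ ≤ 1) (a1 a2 a3 a4 : ℝ)
    (h : ∀ n, 1 ≤ n → 0 ≤ a1 * (F1 n).re + a2 * (F2 n).re + a3 * (F3 n).re + a4 * (F4 n).re) :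
    0 ≤ a1 * (TT σ F1).re + a2 * (TT σ F2).re + a3 * (TT σ F3).re + a4 * (TT σ F4).re := by
  rw [re_TT hσ h1, re_TT hσ h2, re_TT hσ h3, re_TT hσ h4, ← tsum_mul_left, ← tsum_mul_left,
    ← tsum_mul_left, ← tsum_mul_left,
    ← ((summable_re_TT hσ h1).mul_left a1).tsum_add ((summable_re_TT hσ h2).mul_left a2),
    ← (((summable_re_TT hσ h1).mul_left a1).add ((summable_re_TT hσ h2).mul_left a2)).tsum_add
      ((summable_re_TT hσ h3).mul_left a3),
    ← ((((summable_re_TT hσ h1).mul_left a1).add ((summable_re_TT hσ h2).mul_left a2)).add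
      ((summable_re_TT hσ h3).mul_left a3)).tsum_add ((summable_re_TT hσ h4).mul_left a4)]
  refine tsum_nonneg fun n => ?_
  rcases Nat.eq_zero_or_pos n with rfl | hn
  · simp
  · have h5 := mul_nonneg (wt_nonneg σ n) (h n hn)
    linarith

lemma ph_zero {n : ℕ} : ph 0 n = 1 := by
  unfold ph
  simp

lemma norm_char_ph_le {N : ℕ} (χ : DirichletCharacter ℂ N) (τ : ℝ) (n : ℕ) :
    ‖χ n * ph τ n‖ ≤ 1 := by
  rw [norm_mul]
  exact mul_le_one₀ (χ.norm_le_one _) (norm_nonneg _) (norm_ph_le τ n)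

lemma real_val {N : ℕ} {χ : DirichletCharacter ℂ N} (hχ : χ ^ 2 = 1) (n : ℕ) :
    ∃ t : ℝ, χ n = t ∧ |t| ≤ 1 := by
  by_cases hu : IsUnit ((n : ℕ) : ZMod N)
  · have h1 : (χ n) ^ 2 = 1 := by
      rw [← MulChar.pow_apply' χ two_ne_zero, hχ, MulChar.one_apply hu]
    rw [sq] at h1
    rcases mul_self_eq_one_iff.mp h1 with h | h
    · exact ⟨1, by rw [h]; simp, by simp⟩
    · exact ⟨-1, by rw [h]; simp, by simp⟩
  · exact ⟨0, by rw [MulChar.map_nonunit _ hu]; simp, by simp⟩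

/-- Conjugate symmetry for real characters. -/
lemma LFunction_conj {N : ℕ} [NeZero N] {χ : DirichletCharacter ℂ N} (hχ1 : χ ≠ 1)
    (hχ : χ ^ 2 = 1) (s : ℂ) : LFunction χ (conj s) = conj (LFunction χ s) := by
  have hd := differentiable_LFunction hχ1
  have hg : Differentiable ℂ (fun s => conj (LFunction χ (conj s))) := by
    intro s
    have h1 := (hd (conj s)).conj_conj
    rw [Complex.conj_conj] at h1
    exact h1
  have heq : (fun s => conj (LFunction χ (conj s))) = LFunction χ := by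
    have h1 : AnalyticOnNhd ℂ (fun s => conj (LFunction χ (conj s))) univ :=
      fun z _ => hg.analyticAt z
    have h2 : AnalyticOnNhd ℂ (LFunction χ) univ := fun z _ => hd.analyticAt z
    refine h1.eq_of_eventuallyEq h2 (z₀ := 2) ?_
    filter_upwards [eventually_re_gt_one] with s hs
    have hs' : 1 < (conj s).re := by rwa [Complex.conj_re]
    rw [LFunction_eq_LSeries χ hs, LFunction_eq_LSeries χ hs', LSeries, LSeries, Complex.conj_tsum]
    refine tsum_congr fun n => ?_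
    rcases Nat.eq_zero_or_pos n with rfl | hn
    · simp
    · rw [LSeries.term_of_ne_zero hn.ne', LSeries.term_of_ne_zero hn.ne', map_div₀]
      obtain ⟨t, ht, -⟩ := real_val hχ n
      rw [ht, Complex.conj_ofReal]
      congr 1
      have harg : ((n : ℕ) : ℂ).arg ≠ Real.pi := by
        rw [Complex.natCast_arg]
        exact Real.pi_pos.ne
      rw [Complex.cpow_conj _ _ harg, map_natCast, Complex.conj_conj]
  have h3 : conj (LFunction χ (conj s)) = LFunction χ s := congrFun heq s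
  rw [← h3, Complex.conj_conj]

lemma alg1 {t u v : ℝ} (h : u ^ 2 + v ^ 2 = 1) (h1 : -1 ≤ t) (h2 : t ≤ 1) :
    0 ≤ 3 * 1 + 4 * (t * u) + 1 * (u ^ 2 - v ^ 2) + 0 * 0 := by
  nlinarith [sq_nonneg (t + u), mul_nonneg (by linarith : (0 : ℝ) ≤ 1 + t)
    (by linarith : (0 : ℝ) ≤ 1 - t)]

lemma alg2 {u v : ℝ} (h : u ^ 2 + v ^ 2 ≤ 1) :
    0 ≤ 3 * 1 + 4 * u + 1 * (u ^ 2 - v ^ 2) + 0 * 0 := by
  nlinarith [sq_nonneg (1 + u)]

lemma alg3 {t u : ℝ} (h1 : -1 ≤ t) (h2 : -1 ≤ u) :
    0 ≤ 1 * 1 + 1 * t + 1 * u + 1 * (t * u) := by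
  nlinarith [mul_nonneg (by linarith : (0 : ℝ) ≤ 1 + t) (by linarith : (0 : ℝ) ≤ 1 + u)]

lemma alg4 {x y a : ℝ} (ha : a ^ 2 = x ^ 2 + y ^ 2) (h0 : 0 ≤ a) (h : a ≤ 1) :
    x ^ 2 + y ^ 2 ≤ 1 := by
  nlinarith

lemma alg5 {η γ : ℝ} (hη : 0 < η) (h : η ^ 2 ≤ (2 * γ) ^ 2) :
    (1 + η - 1) / ((1 + η - 1) ^ 2 + (2 * γ) ^ 2) ≤ 1 / 2 / η := by
  have e4 : 1 + η - 1 = η := by ring
  rw [e4, div_div, div_le_div_iff₀ (by positivity) (by positivity)]
  nlinarith

lemma alg6 {η β γ : ℝ} (hη : 0 < η) (h1 : 1 - η / 10 ≤ β) (h2 : β < 1)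
    (h : γ ^ 2 ≤ (η / 2) ^ 2) :
    (13 / 10) / η ≤ 2 * (1 + η - β) / ((1 + η - β) ^ 2 + γ ^ 2) := by
  have h3 : 0 < 1 + η - β := by linarith
  rw [div_le_div_iff₀ hη (by positivity)]
  nlinarith

/-- The classical zero-free region. -/
theorem exists_zero_free : ∃ κ : ℝ, 0 < κ ∧ κ ≤ 1 / 10 ∧ ∃ l0 : ℕ, 8 ≤ l0 ∧
    ∀ l : ℕ, l0 ≤ l →
    (∀ (N : ℕ) [NeZero N] (χ : DirichletCharacter ℂ N), χ ≠ 1 → (N : ℝ) ≤ (4 / 3) ^ l →
      ∀ β γ : ℝ, 1 - κ / l ≤ β → |γ| ≤ 5 / 4 → LFunction χ (β + γ * I) = 0 →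
        χ ^ 2 = 1 ∧ γ = 0) ∧
    (∀ (N N1 N2 : ℕ) [NeZero N] [NeZero N1] [NeZero N2] (χ : DirichletCharacter ℂ N)
      (χ1 : DirichletCharacter ℂ N1) (χ2 : DirichletCharacter ℂ N2), χ1 ≠ 1 → χ2 ≠ 1 →
      χ1 ^ 2 = 1 → χ2 ^ 2 = 1 → (∀ n : ℕ, χ n = χ1 n * χ2 n) →
      (N : ℝ) ≤ (4 / 3) ^ l → (N1 : ℝ) ≤ (4 / 3) ^ l → (N2 : ℝ) ≤ (4 / 3) ^ l →
      ∀ β1 β2 : ℝ, 1 - κ / l ≤ β1 → 1 - κ / l ≤ β2 → LFunction χ1 β1 = 0 → LFunction χ2 β2 = 0 →
        χ = 1) := by
  obtain ⟨C, hC1, hC⟩ := exists_ld_lower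
  obtain ⟨Cz, hCz0, hCz⟩ := exists_zeta_ld_bound
  set K : ℝ := 5 * C + 4 * Cz with hK
  have hK1 : 5 ≤ K := by linarith
  set κ1 : ℝ := 1 / (10 * K) with hκ1
  have hκ1pos : 0 < κ1 := by positivity
  have hκ1le : κ1 ≤ 1 / 50 := by
    rw [hκ1]
    apply one_div_le_one_div_of_le (by norm_num)
    linarith
  have hKκ : K * κ1 = 1 / 10 := by rw [hκ1]; field_simp
  obtain ⟨l1, hl1⟩ := exists_nat_ge (1 / κ1)
  refine ⟨κ1 / 10, by positivity, by linarith, max l1 8, le_max_right _ _, fun l hl => ?_⟩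
  have hl8 : 8 ≤ l := (le_max_right _ _).trans hl
  have hll1 : l1 ≤ l := (le_max_left _ _).trans hl
  have hl' : (8 : ℝ) ≤ l := by exact_mod_cast hl8
  have hl1' : 1 / κ1 ≤ (l : ℝ) := hl1.trans (by exact_mod_cast hll1)
  set η : ℝ := κ1 / l with hη
  have hηpos : 0 < η := by positivity
  have hη1 : 1 / (l : ℝ) ^ 2 ≤ η := by
    rw [hη, div_le_div_iff₀ (by positivity) (by positivity)]
    rw [div_le_iff₀ hκ1pos] at hl1'
    nlinarith
  have hη2 : η ≤ 1 / 10 := by
    rw [hη, div_le_iff₀ (by positivity)]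
    nlinarith
  have hκl : κ1 / 10 / l = η / 10 := by rw [hη]; ring
  have hlη : l * η = κ1 := by rw [hη]; field_simp
  have hσ : 1 < 1 + η := by linarith
  rw [hκl]
  have hd : ∀ β : ℝ, 1 - η / 10 ≤ β → β < 1 → 1 / (1 + η - β) ≥ 10 / 11 / η := by
    intro β h1 h2
    rw [ge_iff_le, div_div, div_le_div_iff₀ (by positivity) (by linarith)]
    linarith
  have hzeta0 : (TT (1 + η) (fun n => ph 0 n)).re ≤ 1 / η + Cz := by
    have h := hCz (1 + η) 0 hσ (by linarith) (by norm_num)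
    have e : (1 + η - 1) / ((1 + η - 1) ^ 2 + 0 ^ 2) = 1 / η := by
      have : 1 + η - 1 = η := by ring
      rw [this]
      field_simp
      ring
    rwa [e] at h
  have hTT : ∀ (N : ℕ) [NeZero N] (χ : DirichletCharacter ℂ N) (τ : ℝ),
      (TT (1 + η) (fun n => χ n * ph τ n)).re = -(LD χ ((1 + η : ℝ) + τ * I)).re := by
    intro N _ χ τ
    rw [← neg_LD_eq χ hσ, Complex.neg_re]
  have hKl : K * l = 5 * (C * l) + 4 * (Cz * l) := by rw [hK]; ring
  have hCl : 0 ≤ C * l := by positivity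
  have hCzl : Cz ≤ Cz * l := le_mul_of_one_le_right hCz0 (by linarith)
  -- conversion of inequalities
  have hconv : ∀ a b : ℝ, a / η ≤ b * l → a ≤ b * κ1 := by
    intro a b h
    rw [div_le_iff₀ hηpos] at h
    rw [mul_assoc, hlη] at h
    exact h
  refine ⟨?_, ?_⟩
  · intro N _ χ hχ hN β γ hβ hγ h0
    have hβ1 : β < 1 := by
      by_contra hc
      push Not at hc
      exact LFunction_ne_zero_of_one_le_re χ (.inl hχ) (by simpa using hc) h0
    have hβ9 : 9 / 10 ≤ β := by linarith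
    obtain ⟨hg1, hg2⟩ := abs_le.mp hγ
    have hlb := (hC N χ hχ l hl8 hN η γ hη1 hη2 (by rw [abs_le]; constructor <;> linarith)).2.1
      β hβ9 h0
    have hdβ := hd β hβ hβ1
    by_cases hχ2 : χ ^ 2 = 1
    · refine ⟨hχ2, ?_⟩
      by_contra hγ0
      rcases le_or_gt (η / 2) |γ| with hcase | hcase
      · -- Case B
        exfalso
        have hcomb := comb_nonneg hσ (F1 := fun n => ph 0 n) (F2 := fun n => χ n * ph γ n)
          (F3 := fun n => ph (2 * γ) n) (F4 := fun _ => 0) (norm_ph_le 0) (norm_char_ph_le χ γ)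
          (norm_ph_le _) (by simp) 3 4 1 0 (fun n hn => by
            obtain ⟨t, ht, ht1⟩ := real_val hχ2 n
            rw [ph_zero, ht, ph_two hn, Complex.re_ofReal_mul]
            have hu := norm_ph (τ := γ) hn
            set u := ph γ n with hu'
            have e1 : u.re ^ 2 + u.im ^ 2 = 1 := by
              have := Complex.sq_norm u
              rw [hu, Complex.normSq_apply] at this
              linarith
            have e2 : (u ^ 2).re = u.re ^ 2 - u.im ^ 2 := by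
              rw [sq, Complex.mul_re]; ring
            rw [e2, Complex.one_re, Complex.zero_re]
            obtain ⟨t1, t2⟩ := abs_le.mp ht1
            exact alg1 e1 t1 t2)
        have hz2 := hCz (1 + η) (2 * γ) hσ (by linarith) (by
          rw [abs_mul, abs_two]; linarith)
        have e3 : (1 + η - 1) / ((1 + η - 1) ^ 2 + (2 * γ) ^ 2) ≤ 1 / 2 / η := by
          apply alg5 hηpos
          rw [← sq_abs (2 * γ), abs_mul, abs_two]
          exact pow_le_pow_left₀ hηpos.le (by linarith) 2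
        rw [hTT, zero_mul, add_zero, one_mul] at hcomb
        have h6 : 4 * (10 / 11 / η) ≤ 3 * (1 / η) + 1 / 2 / η + (4 * C * l + 4 * Cz) := by
          linarith
        have h7 : (3 / 22 : ℝ) / η ≤ K * l := by
          have e5 : (3 / 22 : ℝ) / η = 4 * (10 / 11 / η) - 3 * (1 / η) - 1 / 2 / η := by
            field_simp
            norm_num
          rw [e5]
          linarith
        have h8 := hconv _ _ h7
        rw [hKκ] at h8
        norm_num at h8
      · -- Case C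
        exfalso
        have h0' : LFunction χ (β + (-γ : ℝ) * I) = 0 := by
          have h1 := LFunction_conj hχ hχ2 (β + γ * I)
          rw [h0, map_zero] at h1
          have e : conj ((β : ℂ) + γ * I) = β + (-γ : ℝ) * I := by
            simp
          rwa [e] at h1
        have hlb2 := (hC N χ hχ l hl8 hN η 0 hη1 hη2 (by norm_num)).2.2 rfl β γ hβ9 hγ0
          (by linarith) h0 h0'
        have hcomb := comb_nonneg hσ (F1 := fun n => ph 0 n) (F2 := fun n => χ n * ph 0 n)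
          (F3 := fun _ => 0) (F4 := fun _ => 0) (norm_ph_le 0) (norm_char_ph_le χ 0)
          (by simp) (by simp) 1 1 0 0 (fun n hn => by
            obtain ⟨t, ht, ht1⟩ := real_val hχ2 n
            rw [ph_zero, ht, mul_one, Complex.ofReal_re, Complex.one_re, Complex.zero_re]
            linarith [(abs_le.mp ht1).1])
        rw [hTT, zero_mul, add_zero, add_zero, one_mul, one_mul] at hcomb
        have e3 : (13 / 10) / η ≤ 2 * (1 + η - β) / ((1 + η - β) ^ 2 + γ ^ 2) := by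
          apply alg6 hηpos hβ hβ1
          rw [← sq_abs γ]
          exact pow_le_pow_left₀ (abs_nonneg _) hcase.le 2
        have h7 : (3 / 10 : ℝ) / η ≤ K * l := by
          have e5 : (3 / 10 : ℝ) / η = 13 / 10 / η - 1 / η := by
            field_simp
            norm_num
          rw [e5]
          linarith
        have h8 := hconv _ _ h7
        rw [hKκ] at h8
        norm_num at h8
    · -- Case A
      exfalso
      have hub := (hC N (χ ^ 2) hχ2 l hl8 hN η (2 * γ) hη1 hη2 (by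
        rw [abs_mul, abs_two]; linarith)).1
      have hcomb := comb_nonneg hσ (F1 := fun n => ph 0 n) (F2 := fun n => χ n * ph γ n)
          (F3 := fun n => (χ ^ 2) n * ph (2 * γ) n) (F4 := fun _ => 0) (norm_ph_le 0)
          (norm_char_ph_le χ γ) (norm_char_ph_le (χ ^ 2) (2 * γ)) (by simp) 3 4 1 0
          (fun n hn => by
            rw [ph_zero, MulChar.pow_apply' χ two_ne_zero, ph_two hn, ← mul_pow]
            have hu := norm_char_ph_le χ γ n
            set u := χ n * ph γ n with hu'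
            have e1 : u.re ^ 2 + u.im ^ 2 ≤ 1 := by
              have := Complex.sq_norm u
              rw [Complex.normSq_apply] at this
              exact alg4 (this.trans (by ring)) (norm_nonneg u) hu
            have e2 : (u ^ 2).re = u.re ^ 2 - u.im ^ 2 := by
              rw [sq, Complex.mul_re]; ring
            rw [e2, Complex.one_re, Complex.zero_re]
            exact alg2 e1)
      rw [hTT, hTT, zero_mul, add_zero, one_mul] at hcomb
      have h7 : (7 / 11 : ℝ) / η ≤ K * l := by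
        have e5 : (7 / 11 : ℝ) / η = 4 * (10 / 11 / η) - 3 * (1 / η) := by
          field_simp
          norm_num
        rw [e5]
        linarith
      have h8 := hconv _ _ h7
      rw [hKκ] at h8
      norm_num at h8
  · intro N N1 N2 _ _ _ χ χ1 χ2 hχ1 hχ2 hr1 hr2 hmul hN hN1 hN2 β1 β2 hβ1 hβ2 h1 h2
    by_contra hne
    have hb : ∀ (N : ℕ) [NeZero N] (χ : DirichletCharacter ℂ N) (β : ℝ), χ ≠ 1 →
        LFunction χ β = 0 → β < 1 := by
      intro N _ χ β hχ h0
      by_contra hc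
      push Not at hc
      exact LFunction_ne_zero_of_one_le_re χ (.inl hχ) (by simpa using hc) h0
    have hlt1 := hb N1 χ1 β1 hχ1 h1
    have hlt2 := hb N2 χ2 β2 hχ2 h2
    have hz1 : LFunction χ1 (β1 + (0 : ℝ) * I) = 0 := by simpa using h1
    have hz2 : LFunction χ2 (β2 + (0 : ℝ) * I) = 0 := by simpa using h2
    have hlb1 := (hC N1 χ1 hχ1 l hl8 hN1 η 0 hη1 hη2 (by norm_num)).2.1 β1 (by linarith) hz1
    have hlb2 := (hC N2 χ2 hχ2 l hl8 hN2 η 0 hη1 hη2 (by norm_num)).2.1 β2 (by linarith) hz2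
    have hlb := (hC N χ hne l hl8 hN η 0 hη1 hη2 (by norm_num)).1
    have hd1 := hd β1 hβ1 hlt1
    have hd2 := hd β2 hβ2 hlt2
    have hcomb := comb_nonneg hσ (F1 := fun n => ph 0 n) (F2 := fun n => χ1 n * ph 0 n)
      (F3 := fun n => χ2 n * ph 0 n) (F4 := fun n => χ n * ph 0 n) (norm_ph_le 0)
      (norm_char_ph_le χ1 0) (norm_char_ph_le χ2 0) (norm_char_ph_le χ 0) 1 1 1 1
      (fun n hn => by
        obtain ⟨t, ht, ht1⟩ := real_val hr1 n
        obtain ⟨t', ht', ht1'⟩ := real_val hr2 n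
        rw [ph_zero, hmul n, ht, ht', mul_one, mul_one, mul_one, ← Complex.ofReal_mul,
          Complex.ofReal_re, Complex.ofReal_re, Complex.ofReal_re, Complex.one_re]
        exact alg3 (abs_le.mp ht1).1 (abs_le.mp ht1').1)
    rw [hTT, hTT, hTT, one_mul, one_mul, one_mul, one_mul] at hcomb
    have h7 : (9 / 11 : ℝ) / η ≤ K * l := by
      have e5 : (9 / 11 : ℝ) / η = 10 / 11 / η + 10 / 11 / η - 1 / η := by
        field_simp
        norm_num
      rw [e5]
      linarith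
    have h8 := hconv _ _ h7
    rw [hKκ] at h8
    norm_num at h8

end Pool.Agent.Helper94.ZF
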