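import Mathlib
import Pool.Agent.Helper94.ZF.Region2
import Pool.Agent.Helper94.ZF.MuBound
import Pool.Agent.Helper99.MT2.Statement

/-!
The exceptional prime and the final statement.
-/

open Metric Complex ComplexConjugate Set DirichletCharacter Filter Topology

namespace Pool.Agent.Helper94.ZF

open Pool.Agent.Helper11.MT

lemma exists_eps (M : ℕ) [NeZero M] : ∃ ε : ℝ, 0 < ε ∧ ∀ χ : DirichletCharacter ℂ M, χ ≠ 1 →
    ∀ β : ℝ, |β - 1| < ε → LFunction χ β ≠ 0 := by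
  have h1 : ∀ χ : DirichletCharacter ℂ M, ∀ᶠ β : ℝ in 𝓝 (1 : ℝ), χ ≠ 1 → LFunction χ β ≠ 0 := by
    intro χ
    by_cases hχ : χ = 1
    · exact Eventually.of_forall fun _ h => absurd hχ h
    · have hc : Continuous fun β : ℝ => LFunction χ (β : ℂ) :=
        (differentiable_LFunction hχ).continuous.comp Complex.continuous_ofReal
      have hne : LFunction χ ((1 : ℝ) : ℂ) ≠ 0 :=
        LFunction_ne_zero_of_one_le_re χ (.inl hχ) (by simp)
      filter_upwards [hc.continuousAt.eventually_ne hne] with β hβ _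
      exact hβ
  have h2 := eventually_all.mpr h1
  rw [Metric.eventually_nhds_iff] at h2
  obtain ⟨ε, hε, h3⟩ := h2
  refine ⟨ε, hε, fun χ hχ β hβ => h3 (by rwa [Real.dist_eq]) χ hχ⟩

lemma primitive_zero {N : ℕ} [NeZero N] {χ : DirichletCharacter ℂ N} (hχ : χ ≠ 1) {β : ℝ}
    (hβ : 0 < β) (h0 : LFunction χ β = 0) {M : ℕ} [NeZero M] (hM : χ.conductor ∣ M) :
    ∃ χ' : DirichletCharacter ℂ M, χ' ≠ 1 ∧ LFunction χ' β = 0 := by
  have : NeZero χ.conductor := ⟨conductor_ne_zero χ⟩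
  set ψ := χ.primitiveCharacter with hψ
  have h1 : changeLevel χ.conductor_dvd_level ψ = χ := changeLevel_primitiveCharacter χ
  have hψ1 : ψ ≠ 1 := by
    intro h
    apply hχ
    rw [← h1, h]
    exact (changeLevel_eq_one_iff χ.conductor_dvd_level).mpr rfl
  have h2 := LFunction_changeLevel χ.conductor_dvd_level ψ (s := (β : ℂ)) (.inl hψ1)
  rw [h1, h0] at h2
  have h3 : ∏ p ∈ N.primeFactors, (1 - ψ p * (p : ℂ) ^ (-(β : ℂ))) ≠ 0 := by
    rw [Finset.prod_ne_zero_iff]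
    intro p hp h
    have hp1 : 1 < p := (Nat.prime_of_mem_primeFactors hp).one_lt
    have e1 : ψ p * (p : ℂ) ^ (-(β : ℂ)) = 1 := by linear_combination -h
    have e2 := congrArg norm e1
    rw [norm_mul, norm_one, Complex.norm_natCast_cpow_of_pos (by omega)] at e2
    have e3 : ((p : ℝ)) ^ ((-(β : ℂ)).re) < 1 := by
      rw [Complex.neg_re, Complex.ofReal_re]
      exact Real.rpow_lt_one_of_one_lt_of_neg (by exact_mod_cast hp1) (by linarith)
    have e4 := ψ.norm_le_one (p : ZMod χ.conductor)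
    have e5 : 0 ≤ ((p : ℝ)) ^ ((-(β : ℂ)).re) := by positivity
    nlinarith [norm_nonneg (ψ (p : ZMod χ.conductor))]
  have h4 : LFunction ψ β = 0 := by
    rcases mul_eq_zero.mp h2.symm with h | h
    · exact h
    · exact absurd h h3
  refine ⟨changeLevel hM ψ, fun h => hψ1 ((changeLevel_eq_one_iff hM).mp h), ?_⟩
  rw [LFunction_changeLevel hM ψ (.inl hψ1), h4, zero_mul]

lemma mul_char_apply {a b : ℕ} (χ : DirichletCharacter ℂ a) (ψ : DirichletCharacter ℂ b) (n : ℕ) :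
    (changeLevel (dvd_mul_right a b) χ * changeLevel (dvd_mul_left b a) ψ :
      DirichletCharacter ℂ (a * b)) n = χ n * ψ n := by
  rw [MulChar.mul_apply]
  by_cases h : n.Coprime (a * b)
  · have h1 : IsCoprime (n : ℤ) ((a * b : ℕ) : ℤ) := Nat.isCoprime_iff_coprime.mpr h
    have h2 := changeLevel_eq_cast_of_dvd' χ (dvd_mul_right a b) h1
    have h3 := changeLevel_eq_cast_of_dvd' ψ (dvd_mul_left b a) h1
    simp only [Int.cast_natCast] at h2 h3
    rw [h2, h3]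
  · have hn : ¬ IsUnit ((n : ℕ) : ZMod (a * b)) := by
      rwa [ZMod.isUnit_iff_coprime]
    rw [MulChar.map_nonunit _ hn, zero_mul]
    rw [Nat.coprime_mul_iff_right, not_and_or] at h
    rcases h with h | h
    · have : ¬ IsUnit ((n : ℕ) : ZMod a) := by rwa [ZMod.isUnit_iff_coprime]
      rw [MulChar.map_nonunit _ this, zero_mul]
    · have : ¬ IsUnit ((n : ℕ) : ZMod b) := by rwa [ZMod.isUnit_iff_coprime]
      rw [MulChar.map_nonunit _ this, mul_zero]

lemma conductor_eq_of_mul {a b : ℕ} [NeZero a] [NeZero b] (χ : DirichletCharacter ℂ a)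
    (ψ : DirichletCharacter ℂ b)
    (h : (changeLevel (dvd_mul_right a b) χ * changeLevel (dvd_mul_left b a) ψ :
      DirichletCharacter ℂ (a * b)) = 1) : χ.conductor = ψ.conductor := by
  have : NeZero (a * b) := ⟨mul_ne_zero (NeZero.ne a) (NeZero.ne b)⟩
  have h1 : (changeLevel (dvd_mul_right a b) χ : DirichletCharacter ℂ (a * b)) =
      (changeLevel (dvd_mul_left b a) ψ)⁻¹ := eq_inv_of_mul_eq_one_left h
  have h2 := congrArg conductor h1
  rwa [conductor_inv, conductor_changeLevel, conductor_changeLevel] at h2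

lemma dvd_primorial_of {q P : ℕ} (hq : Squarefree q) (h : ∀ p : ℕ, p.Prime → p ∣ q → p ≤ P) :
    q ∣ primorial P := by
  rw [← Nat.prod_primeFactors_of_squarefree hq, primorial]
  refine Finset.prod_dvd_prod_of_subset _ _ _ ?_
  intro p hp
  rw [Nat.mem_primeFactors] at hp
  rw [Finset.mem_filter, Finset.mem_range]
  exact ⟨by have := h p hp.1 hp.2.1; omega, hp.1⟩

/-- The exceptional prime and the decay of the transforms of the Moebius function. -/
theorem zf : Pool.Agent.Helper99.MT2.ZFStatement := by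
  obtain ⟨κ0, hκ0, hκ01, l0, hl0, hreg⟩ := exists_zero_free
  obtain ⟨C, hC1, hmu⟩ := exists_mu_bound
  refine ⟨κ0 / 36, by positivity, 10, by norm_num, fun P0 => ?_⟩
  have : NeZero (primorial P0) := ⟨(primorial_pos P0).ne'⟩
  obtain ⟨ε, hε, hεL⟩ := exists_eps (primorial P0)
  obtain ⟨p0, hp0, hp0p⟩ := Nat.exists_infinite_primes (P0 + 1)
  have hlog : Tendsto (fun D : ℕ => Real.log D) atTop atTop :=
    Real.tendsto_log_atTop.comp tendsto_natCast_atTop_atTop
  filter_upwards [hlog.eventually_ge_atTop 1, hlog.eventually_ge_atTop (l0 : ℝ),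
    hlog.eventually_ge_atTop (κ0 / ε), hlog.eventually_ge_atTop (C * 9 ^ 9 / κ0 ^ 5),
    eventually_ge_atTop p0, eventually_ge_atTop 1] with D h1 h2 h3 h4 h5 h6
  set l : ℕ := ⌈8 * Real.log D⌉₊ with hl
  have hD1 : (1 : ℝ) ≤ D := by exact_mod_cast h6
  have hDpos : (0 : ℝ) < D := by linarith
  have hl1 : 8 * Real.log D ≤ l := Nat.le_ceil _
  have hl2 : (l : ℝ) ≤ 9 * Real.log D := by
    have := Nat.ceil_lt_add_one (a := 8 * Real.log D) (by linarith)
    linarith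
  have hll0 : l0 ≤ l := by
    have : (l0 : ℝ) ≤ l := by linarith
    exact_mod_cast this
  have hl8 : 8 ≤ l := hl0.trans hll0
  have hl8' : (8 : ℝ) ≤ l := by exact_mod_cast hl8
  have hlpos : (0 : ℝ) < l := by linarith
  have hD2 : (D : ℝ) ^ 2 ≤ (4 / 3) ^ l := by
    have e1 : (1 / 4 : ℝ) ≤ Real.log (4 / 3) := by
      have := Real.one_sub_inv_le_log_of_pos (x := 4 / 3) (by norm_num)
      norm_num at this
      linarith
    rw [← Real.log_le_log_iff (by positivity) (by positivity), Real.log_pow, Real.log_pow]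
    push_cast
    nlinarith
  have hD4 : (D : ℝ) ≤ (4 / 3) ^ l := by
    refine le_trans ?_ hD2
    nlinarith
  have hκε : κ0 / l < ε := by
    rw [div_lt_iff₀ hlpos]
    rw [div_le_iff₀ hε] at h3
    nlinarith
  have hκl : κ0 / l ≤ 1 / 80 := by
    rw [div_le_iff₀ hlpos]
    nlinarith
  obtain ⟨hreg1, hreg2⟩ := hreg l hll0
  -- the exceptional prime
  have hpe : ∃ pe : ℕ, pe.Prime ∧ P0 < pe ∧ pe ≤ D ∧ ∀ (N : ℕ) [NeZero N], N ≤ D →
      Squarefree N → ¬ pe ∣ N → ∀ χ : DirichletCharacter ℂ N, χ ≠ 1 →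
      ∀ β γ : ℝ, 1 - κ0 / l ≤ β → |γ| ≤ 5 / 4 → LFunction χ (β + γ * I) ≠ 0 := by
    by_cases hbad : ∃ N1 : ℕ, ∃ hN : NeZero N1, N1 ≤ D ∧ Squarefree N1 ∧
        ∃ χ1 : DirichletCharacter ℂ N1, χ1 ≠ 1 ∧ ∃ β γ : ℝ, 1 - κ0 / l ≤ β ∧ |γ| ≤ 5 / 4 ∧
          LFunction χ1 (β + γ * I) = 0
    · obtain ⟨N1, hN, hN1D, hsq, χ1, hχ1, β1, γ1, hβ1, hγ1, h0⟩ := hbad
      have hN1l : (N1 : ℝ) ≤ (4 / 3) ^ l := by
        refine le_trans ?_ hD4
        exact_mod_cast hN1D
      obtain ⟨hr1, hg1⟩ := hreg1 N1 χ1 hχ1 hN1l β1 γ1 hβ1 hγ1 h0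
      rw [hg1, Complex.ofReal_zero, zero_mul, add_zero] at h0
      have hβ1lt : β1 < 1 := by
        by_contra hc
        push Not at hc
        exact LFunction_ne_zero_of_one_le_re χ1 (.inl hχ1) (by simpa using hc) h0
      have hqsq : Squarefree χ1.conductor := hsq.squarefree_of_dvd χ1.conductor_dvd_level
      have hex : ∃ p : ℕ, p.Prime ∧ p ∣ χ1.conductor ∧ P0 < p := by
        by_contra hc
        push Not at hc
        have hdvd := dvd_primorial_of hqsq hc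
        obtain ⟨χ', hχ', h0'⟩ := primitive_zero hχ1 (by linarith) h0 hdvd
        refine hεL χ' hχ' β1 ?_ h0'
        rw [abs_lt]
        constructor <;> linarith
      obtain ⟨pe, hpep, hpeq, hpeP⟩ := hex
      have hpeN : pe ∣ N1 := hpeq.trans χ1.conductor_dvd_level
      refine ⟨pe, hpep, hpeP, (Nat.le_of_dvd (NeZero.pos N1) hpeN).trans hN1D, ?_⟩
      intro N _ hND hNsq hpN χ hχ β γ hβ hγ h00
      have hNl : (N : ℝ) ≤ (4 / 3) ^ l := by
        refine le_trans ?_ hD4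
        exact_mod_cast hND
      obtain ⟨hr, hg⟩ := hreg1 N χ hχ hNl β γ hβ hγ h00
      rw [hg, Complex.ofReal_zero, zero_mul, add_zero] at h00
      have : NeZero (N1 * N) := ⟨mul_ne_zero (NeZero.ne N1) (NeZero.ne N)⟩
      have hNN : ((N1 * N : ℕ) : ℝ) ≤ (4 / 3) ^ l := by
        refine le_trans ?_ hD2
        have : N1 * N ≤ D ^ 2 := by
          rw [sq]
          exact Nat.mul_le_mul hN1D hND
        exact_mod_cast this
      have hone := hreg2 (N1 * N) N1 N _ χ1 χ hχ1 hχ hr1 hr (mul_char_apply χ1 χ) hNN hN1l hNl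
        β1 β hβ1 hβ h0 h00
      have hcond := conductor_eq_of_mul χ1 χ hone
      rw [hcond] at hpeq
      exact hpN (hpeq.trans χ.conductor_dvd_level)
    · refine ⟨p0, hp0p, by omega, h5, ?_⟩
      intro N hN hND hNsq _ χ hχ β γ hβ hγ h00
      exact hbad ⟨N, hN, hND, hNsq, χ, hχ, β, γ, hβ, hγ, h00⟩
  obtain ⟨pe, hpep, hpeP, hpeD, hfree⟩ := hpe
  refine ⟨pe, hpep, hpeP, hpeD, ?_⟩
  intro N hN0 hND hNsq hpN χ hχ c
  have : NeZero N := ⟨hN0.ne'⟩
  have hNl : (N : ℝ) ≤ (4 / 3) ^ l := by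
    refine le_trans ?_ hD4
    exact_mod_cast hND
  refine (hmu N χ hχ l hl8 hNl κ0 hκ0 hκ01 (hfree N hND hNsq hpN χ hχ) c).trans ?_
  have hlogpos : 0 < Real.log D := by linarith
  have e1 : C * (l : ℝ) ^ 9 / κ0 ^ 5 ≤ (Real.log D) ^ (10 : ℝ) := by
    have e2 : (Real.log D) ^ (10 : ℝ) = (Real.log D) ^ (10 : ℕ) := by
      rw [← Real.rpow_natCast]
      norm_num
    rw [e2]
    calc C * (l : ℝ) ^ 9 / κ0 ^ 5 ≤ C * (9 * Real.log D) ^ 9 / κ0 ^ 5 := by gcongr
      _ = C * 9 ^ 9 / κ0 ^ 5 * (Real.log D) ^ 9 := by ring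
      _ ≤ Real.log D * (Real.log D) ^ 9 := by gcongr
      _ = (Real.log D) ^ 10 := by ring
  have e3 : 1 / (1 + κ0 / (4 * l)) ^ c ≤ (1 + κ0 / 36 / Real.log D) ^ (-(c : ℝ)) := by
    rw [Real.rpow_neg (by positivity), Real.rpow_natCast, ← one_div]
    apply one_div_le_one_div_of_le (by positivity)
    have e4 : κ0 / 36 / Real.log D ≤ κ0 / (4 * l) := by
      rw [div_div, div_le_div_iff₀ (by positivity) (by positivity)]
      nlinarith
    gcongr
  calc C * (l : ℝ) ^ 9 / κ0 ^ 5 / (1 + κ0 / (4 * l)) ^ c =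
      C * (l : ℝ) ^ 9 / κ0 ^ 5 * (1 / (1 + κ0 / (4 * l)) ^ c) := by ring
    _ ≤ (Real.log D) ^ (10 : ℝ) * (1 + κ0 / 36 / Real.log D) ^ (-(c : ℝ)) := by gcongr

end Pool.Agent.Helper94.ZF
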